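import Pool.Agent.Helper26.MT.Ze
import Pool.Agent.Helper36.AM.Top

/-! MULTI-TYPE LAYER: the numbers `vol`, `volO`, `HQ` of a zoom; the structure theorem for a class closed under zooms at
all windows. -/

set_option autoImplicit false

namespace Pool.Agent.Helper84.MT

open Finset Filter Topology Matrix Pool.Agent.Helper69.RK Pool.Agent.Helper31.EC Pool.Agent.Helper31.EC.Sp
open Pool.Agent.Helper40.EL Pool.Agent.Helper89.LX Pool.Agent.Helper3.LF Pool.Agent.Helper95.LF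
open Pool.Agent.Helper36.AM (volO HQ HQ_eq STO MCl DGR)

noncomputable section

variable {S : Sp} {M : ℕ} {E : ℕ → ℕ} {ι : Type}

theorem dd_deg_zero (a : Fin M) (p : Fin M → ℝ) : (dd a p : Mon M 0 → ℝ) = 0 := by
  funext μ
  have h1 : μ = Mon.zero M 0 := by
    apply Subtype.ext
    funext i
    exact Subsingleton.elim (α := Fin 1) _ _
  rw [h1]
  exact dd_zero a p

/-- forms of degree zero have full volume -/
theorem vol_deg_zero (Q : S.VV M) (x : ∀ k, FD (S.F k) (Mon M 0)) : vol Q 0 x = M := by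
  have h1 : ∀ (r : ℝ) (A : Matrix (Mon M 0) (Mon M 0) ℝ) (p : Fin M → ℝ), GQ r A p = 1 := by
    intro r A p
    have h2 : Jq r A p = 0 := by
      ext a b
      rw [Jq_apply]
      apply Finset.sum_eq_zero
      intro j _
      rw [dd_deg_zero, zero_dotProduct]
    unfold GQ
    rw [h2, add_zero, Matrix.det_one]
  unfold vol
  have h3 : (fun k => ∑ ω, (x k).l.T.μ ω *
    (Real.logb 2 (GQ (S.dl 1 k) ((x k).g ω) (Q.v k ((x k).l.p.π ω))) / (2 * (S.F k).n))) = fun _ => 0 := by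
    funext k
    apply Finset.sum_eq_zero
    intro ω _
    rw [h1, Real.logb_one, zero_div, mul_zero]
  rw [h3, ul_const, sub_zero]

theorem MSys.vol_zero [Finite ι] (s : MSys S M E ι) (c : ℝ) : s.vol 0 c = M := vol_deg_zero _ _

/-- the entropy is at most the volume -/
theorem HQ_le_vol [Finite ι] (s : MSys S M E ι) (D : ℕ) (c : ℝ) : HQ s c ≤ s.vol D c := by
  rcases Nat.eq_zero_or_pos D with h0 | h0
  · subst h0
    rw [s.vol_zero]
    have h1 := H_up1_le (s.kap c) (s.Q.dg 1)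
    have h2 := s.Q.H_dg_le (zero_le_one (α := ℝ))
    rw [mul_one] at h2
    exact h1.trans h2
  · obtain ⟨x, hx⟩ := s.exists_can D c
    rw [← s.vol_eq hx.1, ← HQ_eq s hx.2]
    exact Pool.Agent.Helper14.MC.cnt_vol s.Q h0 x hx.1.1

theorem HQ_nonneg [Countable ι] (s : MSys S M E ι) (c : ℝ) : 0 ≤ HQ s c := H_nonneg _

theorem volO_bdd [Finite ι] (s : MSys S M E ι) (c : ℝ) : BddBelow (Set.range fun D => s.vol D c) := by
  refine ⟨HQ s c, ?_⟩
  rintro _ ⟨D, rfl⟩
  exact HQ_le_vol s D c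

theorem HQ_le_volO [Finite ι] (s : MSys S M E ι) (c : ℝ) : HQ s c ≤ volO s c := le_ciInf fun D => HQ_le_vol s D c

theorem volO_le [Finite ι] (s : MSys S M E ι) (D : ℕ) (c : ℝ) : volO s c ≤ s.vol D c := ciInf_le (volO_bdd s c) D

theorem volO_le_M [Finite ι] (s : MSys S M E ι) (c : ℝ) : volO s c ≤ M := (volO_le s 0 c).trans (s.vol_le_M 0 c)

theorem volO_anti [Finite ι] (s : MSys S M E ι) {a b : ℝ} (hab : a ≤ b) : volO s b ≤ volO s a :=
  le_ciInf fun D => (volO_le s D b).trans (s.vol_anti D hab)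

namespace ZM

variable {s : MSys S M E ι} (Z : ZM s)

/-- the volume of the zoom -/
theorem vol_sys [Finite ι] {D : ℕ} (hD : 1 ≤ D) {b : ℝ} (hb : 0 ≤ b) :
    s.vol D (Z.c + Z.e * b) = Z.e * Z.sys.vol D b := by
  obtain ⟨x, hx⟩ := s.exists_can D (Z.c + Z.e * b)
  obtain ⟨y, hy⟩ := Z.sys.exists_can D b
  rw [← s.vol_eq hx.1, ← Z.sys.vol_eq hy.1]
  exact Z.vol_can hD hb hy hx

/-- the volume of the zoom, all degrees -/
theorem volO_sys [Finite ι] {b : ℝ} (hb : 0 ≤ b) : volO s (Z.c + Z.e * b) = Z.e * volO Z.sys b := by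
  apply le_antisymm
  · have h1 : Z.e * volO Z.sys b = ⨅ D : ℕ, Z.e * Z.sys.vol D b := Real.mul_iInf_of_nonneg Z.e_pos.le _
    rw [h1]
    refine le_ciInf fun D => ?_
    rcases Nat.eq_zero_or_pos D with h0 | h0
    · subst h0
      refine (volO_le s 1 _).trans ?_
      rw [Z.vol_sys le_rfl hb, Z.sys.vol_zero]
      exact mul_le_mul_of_nonneg_left (Z.sys.vol_le_M 1 b) Z.e_pos.le
    · rw [← Z.vol_sys h0 hb]
      exact volO_le s D _
  · refine le_ciInf fun D => ?_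
    rcases Nat.eq_zero_or_pos D with h0 | h0
    · subst h0
      rw [s.vol_zero]
      have h1 := mul_le_mul_of_nonneg_left (volO_le_M Z.sys b) Z.e_pos.le
      have h2 := Z.e_le
      have h3 : (0 : ℝ) ≤ M := Nat.cast_nonneg M
      nlinarith
    · rw [Z.vol_sys h0 hb]
      exact mul_le_mul_of_nonneg_left (volO_le Z.sys D b) Z.e_pos.le

/-- the entropy rate of the point of the zoom -/
theorem HQ_sys [Countable ι] {b : ℝ} (hb : 0 ≤ b) : HQ s (Z.c + Z.e * b) = Z.e * HQ Z.sys b :=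
  Z.H_Q hb (s.kap_isKap _) (Z.sys.kap_isKap b)

/-- the deficit of the zoom -/
theorem def_sys [Finite ι] {b : ℝ} (hb : 0 ≤ b) : volO s (Z.c + Z.e * b) - HQ s (Z.c + Z.e * b) =
    Z.e * (volO Z.sys b - HQ Z.sys b) := by
  rw [Z.volO_sys hb, Z.HQ_sys hb]
  ring

end ZM

/-- the window `1` and beyond: a system with a label `kappa_c`, `c < 1`, and its zoom at the window `0` -/
theorem volO_mkz [Finite ι] (s : MSys S M E ι) {c : ℝ} (h0 : 0 ≤ c) (h1 : c < 1) {l : Lab S} (hl : s.DMc c l) :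
    volO s c = (1 - c) * volO (s.mkz h0 h1 hl).sys 0 := by
  have h := (s.mkz h0 h1 hl).volO_sys (b := 0) le_rfl
  have e1 : (s.mkz h0 h1 hl).c + (s.mkz h0 h1 hl).e * 0 = c := by
    rw [mul_zero, add_zero]
    rfl
  rw [e1] at h
  exact h

theorem HQ_mkz [Countable ι] (s : MSys S M E ι) {c : ℝ} (h0 : 0 ≤ c) (h1 : c < 1) {l : Lab S} (hl : s.DMc c l) :
    HQ s c = (1 - c) * HQ (s.mkz h0 h1 hl).sys 0 := by
  have h := (s.mkz h0 h1 hl).HQ_sys (b := 0) le_rfl
  have e1 : (s.mkz h0 h1 hl).c + (s.mkz h0 h1 hl).e * 0 = c := by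
    rw [mul_zero, add_zero]
    rfl
  rw [e1] at h
  exact h

/-- THE STRUCTURE THEOREM AT ALL WINDOWS for a class: it is enough that the zoom over one label is in the class -/
theorem sto_win {Cl : MCl M} (h : STO M Cl) {g r : ℕ} (s : MSys S M (lin g) (Fin r)) {c : ℝ} (h0 : 0 ≤ c) (h1 : c < 1)
    {l : Lab S} (hl : s.DMc c l) (hZ : Cl _ g r (s.mkz h0 h1 hl).sys) : volO s c ≤ HQ s c := by
  rw [volO_mkz s h0 h1 hl, HQ_mkz s h0 h1 hl]
  exact mul_le_mul_of_nonneg_left (h _ _ _ _ hZ) (by linarith)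

end

end Pool.Agent.Helper84.MT
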