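import Pool.Agent.Helper84.MT.Vol
import Pool.Agent.Helper3.ZM.Gain

/-! Forms under homotheties: gradient matrices, volume determinants, determinants of the forms. -/

set_option autoImplicit false

namespace Pool.Agent.Helper26.MZ

open MvPolynomial Matrix Pool.Agent.Helper95.LF Pool.Agent.Helper3.LF Pool.Agent.Helper84.MT
open Pool.Agent.Helper3.ZM (aff afs afs_C afs_X eval_afs MM pol_MM afm afm_qf afm_symm afm_nonneg dd_afm nodp_aff phi_afm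
  dd_sng sng)

variable {N D : ℕ}

/-- the gradient matrix of the transformed form -/
theorem Jq_afm (o : Fin N → ℝ) (δ : ℝ) (A : Matrix (Mon N D) (Mon N D) ℝ) (r : ℝ) (p : Fin N → ℝ) :
    Jq r (afm o δ A) p = δ ^ 2 • Jq (δ * r) A (aff o δ p) := by
  ext a b
  rw [Matrix.smul_apply, smul_eq_mul, Jq_apply, Jq_apply, Finset.mul_sum]
  refine Finset.sum_congr rfl fun j _ => ?_
  rw [dd_afm, nodp_aff]

/-- the gradients of the coordinates -/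
theorem Wq_sng (hD : 1 ≤ D) (p : Fin N → ℝ) (e : Fin N → ℝ) (i : Fin N) :
    (Wq N D p *ᵥ e) (sng hD i) = e i := by
  classical
  have h1 : (Wq N D p *ᵥ e) (sng hD i) = ∑ a, dd a p (sng hD i) * e a := rfl
  rw [h1]
  have h2 : ∀ a : Fin N, dd a p (sng hD i) * e a = if a = i then e i else 0 := by
    intro a
    rw [dd_sng]
    by_cases h : a = i
    · rw [h, if_pos rfl, if_pos rfl, one_mul]
    · rw [if_neg h, if_neg (fun h' => h h'.symm), zero_mul]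
  rw [Finset.sum_congr rfl fun a _ => h2 a, Finset.sum_ite_eq' Finset.univ i, if_pos (Finset.mem_univ i)]

theorem sng_inj (hD : 1 ≤ D) {i j : Fin N} (h : sng (D := D) hD i = sng hD j) : i = j := by
  have h1 := congrArg Mon.mon h
  rw [Pool.Agent.Helper3.ZM.sng_mon, Pool.Agent.Helper3.ZM.sng_mon] at h1
  exact X_injective h1

/-- forms above the identity have unit gradients -/
theorem Jq_ge_self (hD : 1 ≤ D) (r : ℝ) {B : Matrix (Mon N D) (Mon N D) ℝ}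
    (hB : ∀ x, x ⬝ᵥ x ≤ x ⬝ᵥ (B *ᵥ x)) (p : Fin N → ℝ) (e : Fin N → ℝ) :
    e ⬝ᵥ e ≤ e ⬝ᵥ (Jq r B p *ᵥ e) := by
  classical
  rw [Jq_qf]
  have h0 : ∀ x : Mon N D → ℝ, 0 ≤ x ⬝ᵥ (B *ᵥ x) := fun x => (self_nonneg' x).trans (hB x)
  refine le_trans ?_ (Finset.single_le_sum (f := fun j : Fin N → Fin (D + 1) =>
    (Wq N D (nodp D p r j) *ᵥ e) ⬝ᵥ (B *ᵥ (Wq N D (nodp D p r j) *ᵥ e))) (fun j _ => h0 _)
    (Finset.mem_univ (fun _ => 0)))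
  refine le_trans ?_ (hB _)
  set w := Wq N D (nodp D p r fun _ => 0) *ᵥ e with hw
  have h1 : e ⬝ᵥ e = ∑ μ ∈ (Finset.univ : Finset (Fin N)).image (fun i => sng (D := D) hD i), w μ * w μ := by
    rw [Finset.sum_image (fun i _ j _ h => sng_inj hD h)]
    unfold dotProduct
    refine Finset.sum_congr rfl fun i _ => ?_
    rw [hw, Wq_sng]
  rw [h1]
  exact Finset.sum_le_sum_of_subset_of_nonneg (Finset.subset_univ _) fun μ _ _ => mul_self_nonneg _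

/-- gain of volume under homotheties, from the zoom to the space -/
theorem GQ_gain (hD : 1 ≤ D) (r δ : ℝ) (hδ : 0 < δ) (A B : Matrix (Mon N D) (Mon N D) ℝ)
    (hA : PdM A) (hB : B.IsSymm) (hB1 : ∀ x, x ⬝ᵥ x ≤ x ⬝ᵥ (B *ᵥ x)) (o : Fin N → ℝ)
    (p : Fin N → ℝ) (h : ∀ x, x ⬝ᵥ (afm o δ⁻¹ B *ᵥ x) ≤ x ⬝ᵥ (A *ᵥ x)) :
    GQ (δ⁻¹ * r) B (aff o δ⁻¹ p) ≤ (2 * δ ^ 2) ^ N * GQ r A p := by
  have hB0 : ∀ x : Mon N D → ℝ, 0 ≤ x ⬝ᵥ (B *ᵥ x) := fun x => (self_nonneg' x).trans (hB1 x)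
  have h1 := det_le_pow (one_Jq_pd r hA.1 hA.nonneg p) (one_Jq_pd (δ⁻¹ * r) hB hB0 (aff o δ⁻¹ p))
    (K := 2 * δ ^ 2) (by positivity) (fun x => by
      rw [dv_add, dv_add, one_dv]
      have h2 := Jq_ge_self hD (δ⁻¹ * r) hB1 (aff o δ⁻¹ p) x
      have h3 : x ⬝ᵥ (Jq r (afm o δ⁻¹ B) p *ᵥ x) ≤ x ⬝ᵥ (Jq r A p *ᵥ x) := Jq_mono r h p x
      rw [Jq_afm, dv_smul] at h3
      have h4 := self_nonneg' x
      have h5 : x ⬝ᵥ (Jq (δ⁻¹ * r) B (aff o δ⁻¹ p) *ᵥ x) ≤ δ ^ 2 * (x ⬝ᵥ (Jq r A p *ᵥ x)) := by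
        have h6 : x ⬝ᵥ (Jq (δ⁻¹ * r) B (aff o δ⁻¹ p) *ᵥ x) =
            δ ^ 2 * (δ⁻¹ ^ 2 * (x ⬝ᵥ (Jq (δ⁻¹ * r) B (aff o δ⁻¹ p) *ᵥ x))) := by
          field_simp
        rw [h6]
        exact mul_le_mul_of_nonneg_left h3 (by positivity)
      nlinarith [mul_nonneg (sq_nonneg δ) h4])
  rw [Fintype.card_fin] at h1
  exact h1

/-- loss of volume under homotheties, from the space to the zoom -/
theorem GQ_loss (r δ : ℝ) (hδ : 0 < δ) (hδ1 : δ ≤ 1) (A B : Matrix (Mon N D) (Mon N D) ℝ) (hA : A.IsSymm)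
    (hA0 : ∀ x, 0 ≤ x ⬝ᵥ (A *ᵥ x)) (hB : PdM B) (o : Fin N → ℝ) (q : Fin N → ℝ)
    (h : ∀ x, x ⬝ᵥ (afm o δ A *ᵥ x) ≤ x ⬝ᵥ (B *ᵥ x)) :
    GQ (δ * r) A (aff o δ q) ≤ ((δ ^ 2)⁻¹) ^ N * GQ r B q := by
  have h1 := det_le_pow (one_Jq_pd r hB.1 hB.nonneg q) (one_Jq_pd (δ * r) hA hA0 (aff o δ q))
    (K := (δ ^ 2)⁻¹) (by positivity) (fun x => by
      rw [dv_add, dv_add, one_dv]
      have h3 : x ⬝ᵥ (Jq r (afm o δ A) q *ᵥ x) ≤ x ⬝ᵥ (Jq r B q *ᵥ x) := Jq_mono r h q x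
      rw [Jq_afm, dv_smul] at h3
      have h4 := self_nonneg' x
      have h5 : x ⬝ᵥ (Jq (δ * r) A (aff o δ q) *ᵥ x) ≤ (δ ^ 2)⁻¹ * (x ⬝ᵥ (Jq r B q *ᵥ x)) := by
        have h6 : x ⬝ᵥ (Jq (δ * r) A (aff o δ q) *ᵥ x) =
            (δ ^ 2)⁻¹ * (δ ^ 2 * (x ⬝ᵥ (Jq (δ * r) A (aff o δ q) *ᵥ x))) := by
          field_simp
        rw [h6]
        exact mul_le_mul_of_nonneg_left h3 (by positivity)
      have h7 : 1 ≤ (δ ^ 2)⁻¹ := (one_le_inv₀ (by positivity)).mpr (pow_le_one₀ hδ.le hδ1)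
      nlinarith)
  rw [Fintype.card_fin] at h1
  exact h1

/-! ### determinants -/

theorem pol_inj {c c' : Mon N D → ℝ} (h : pol c = pol c') : c = c' := by
  funext a
  rw [← coeff_pol c a, h, coeff_pol]

theorem afs_inv (o : Fin N → ℝ) {δ : ℝ} (hδ : δ ≠ 0) (f : MvPolynomial (Fin N) ℝ) :
    afs (fun i => -(δ⁻¹ * o i)) δ⁻¹ (afs o δ f) = f := by
  have h1 : (afs (fun i => -(δ⁻¹ * o i)) δ⁻¹).comp (afs o δ) = AlgHom.id ℝ (MvPolynomial (Fin N) ℝ) := by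
    apply MvPolynomial.algHom_ext
    intro i
    rw [AlgHom.comp_apply, afs_X, map_add, map_mul, afs_C, afs_C, afs_X, AlgHom.id_apply, mul_add, ← C_mul, ← mul_assoc,
      ← C_mul, mul_inv_cancel₀ hδ, C_1, one_mul, ← add_assoc, ← C_add]
    have : o i + δ * -(δ⁻¹ * o i) = 0 := by field_simp; ring
    rw [this, C_0, zero_add]
  exact DFunLike.congr_fun h1 f

/-- the two homotheties are inverse to each other -/
theorem MM_inv (o : Fin N → ℝ) {δ : ℝ} (hδ : δ ≠ 0) :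
    MM D (fun i => -(δ⁻¹ * o i)) δ⁻¹ * MM D o δ = 1 := by
  apply Matrix.ext_of_mulVec_single
  intro i
  apply pol_inj
  rw [← Matrix.mulVec_mulVec, pol_MM, pol_MM, afs_inv o hδ, Matrix.one_mulVec]

theorem MM_det (o : Fin N → ℝ) {δ : ℝ} (hδ : δ ≠ 0) :
    (MM D (fun i => -(δ⁻¹ * o i)) δ⁻¹).det * (MM D o δ).det = 1 := by
  rw [← Matrix.det_mul, MM_inv o hδ, Matrix.det_one]

theorem afm_det (o : Fin N → ℝ) (δ : ℝ) (A : Matrix (Mon N D) (Mon N D) ℝ) :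
    (afm o δ A).det = (MM D o δ).det ^ 2 * A.det := by
  unfold afm
  rw [Matrix.det_mul, Matrix.det_mul, Matrix.det_transpose]
  ring

/-- a transformed positive definite form is positive definite -/
theorem afm_pd (o : Fin N → ℝ) {δ : ℝ} (hM : (MM D o δ).det ≠ 0) {A : Matrix (Mon N D) (Mon N D) ℝ} (hA : PdM A) :
    PdM (afm o δ A) := by
  refine ⟨afm_symm o δ hA.1, fun x hx => ?_⟩
  rw [afm_qf]
  apply hA.2
  intro h0
  apply hx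
  have h1 : IsUnit (MM D o δ).transpose.det := by
    rw [Matrix.det_transpose]
    exact hM.isUnit
  have h2 : ((MM D o δ).transpose)⁻¹ *ᵥ ((MM D o δ).transpose *ᵥ x) = x := by
    rw [Matrix.mulVec_mulVec, Matrix.nonsing_inv_mul _ h1, Matrix.one_mulVec]
  rw [← h2, h0, Matrix.mulVec_zero]

/-- determinants of forms above the transformed form -/
theorem det_afm_le (o : Fin N → ℝ) {δ : ℝ} (hM : (MM D o δ).det ≠ 0) {A B : Matrix (Mon N D) (Mon N D) ℝ} (hA : PdM A)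
    (hB : B.IsSymm) (h : ∀ x, x ⬝ᵥ (afm o δ A *ᵥ x) ≤ x ⬝ᵥ (B *ᵥ x)) :
    (MM D o δ).det ^ 2 * A.det ≤ B.det := by
  rw [← afm_det]
  exact det_mono (afm_pd o hM hA) hB h

end Pool.Agent.Helper26.MZ
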