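import Pool.Agent.Helper26.MT.Zm

/-! MULTI-TYPE LAYER: windows and labels of a zoom. The conditions of the window `b` of the zoom are the conditions of the
window `c + (1 - c) b` of the system; labels of the zoom composed with the label of the zoom are labels of the system;
maximal labels correspond to maximal labels. -/

set_option autoImplicit false

namespace Pool.Agent.Helper84.MT

open Finset Filter Topology Matrix Pool.Agent.Helper69.RK Pool.Agent.Helper31.EC Pool.Agent.Helper31.EC.Sp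
open Pool.Agent.Helper40.EL Pool.Agent.Helper89.LX Pool.Agent.Helper3.LF
open Pool.Agent.Helper95.LF (PdM)

noncomputable section

variable {S : Sp} {M : ℕ} {E : ℕ → ℕ} {ι : Type}

/-- functions of a part -/
theorem PLe_inf {A B : ∀ k, Setoid (S.F k).Ω} {X : Part S} (h1 : PLe (fun k => fc (A k)) X)
    (h2 : PLe (fun k => fc (B k)) X) : PLe (fun k => fc (A k ⊓ B k)) X := by
  have e1 : (fun k => fc (A k ⊓ B k) : Part S) = fun k => fc (A k) ⊔ fc (B k) := funext fun k => fc_inf _ _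
  rw [e1]
  exact h1.sup_le h2

namespace ZM

variable {s : MSys S M E ι} (Z : ZM s)

/-- parts in the space of the zoom -/
abbrev upz (A : Part S) : Part Z.sp := Z.l.up Z.e Z.e_pos A

theorem PLe_upz {A B : Part S} (h : PLe A B) : PLe (Z.upz A) (Z.upz B) := Lab.PLe_up (l := Z.l) (c := Z.e) (hc := Z.e_pos) h

/-- the point of the zoom -/
theorem pcd_up : PLe (pcd (Z.fr s.Q)) (Z.upz (pcd s.Q)) := by
  refine Z.fr_PLe s.Q 1 (fun k => Setoid.comap (Z.l k).p.π (Setoid.ker (s.Q.cellv 1 k))) ?_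
  refine Eventually.of_forall fun k ω ω' a b g r => ?_
  obtain ⟨g1, g2, -⟩ := Z.hZ k ω ω' a b g
  refine ⟨Z.cell k ω ω' a b g1 g2, ?_⟩
  rw [mul_one, Z.c_add_e]
  exact r

theorem up_pcd : PLe (Z.upz (pcd s.Q)) (pcd (Z.fr s.Q)) := by
  have h1 := Z.fr_PLe' s.Q 1 (fun k => Setoid.ker ((Z.fr s.Q).cellv 1 k)) (by
    refine Eventually.of_forall fun k ω ω' a b g r => ?_
    obtain ⟨g1, g2, -⟩ := Z.hZ k ω ω' a b g
    exact ⟨Z.cell k ω ω' a b g1 g2, r⟩)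
  rw [mul_one, Z.c_add_e] at h1
  exact h1

/-- the window `c + e b` in the space of the label -/
def wz (l : Leaf S s.Q E) (b : ℝ) (k : ℕ) : Setoid (Z.l k).T.Ω :=
  Setoid.comap (Z.l k).p.π (l.La k ⊓ Setoid.ker (l.Y.cellv (Z.c + Z.e * b) k))

theorem wz_fc (l : Leaf S s.Q E) (b : ℝ) : (fun k => (fc (Z.wz l b k : Setoid (Z.sp.F k).Ω) : FL (Z.sp.F k))) =
    Z.upz (l.win (Z.c + Z.e * b)) := rfl

theorem zLa_wz (l : Leaf S s.Q E) {b : ℝ} (hb : 0 ≤ b) :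
    PLe (S := Z.sp) (fun k => fc (Z.zLa l k : Setoid (Z.sp.F k).Ω)) (fun k => fc (Z.wz l b k : Setoid (Z.sp.F k).Ω)) := by
  have hm : Z.c ≤ Z.c + Z.e * b := by
    have := mul_nonneg Z.e_pos.le hb
    linarith
  have h1 : PLe (l.win Z.c) (l.win (Z.c + Z.e * b)) := l.win_mono hm
  have h2 : PLe (Z.upz (l.win Z.c)) (Z.upz (l.win (Z.c + Z.e * b))) := Z.PLe_upz h1
  rw [← wz_fc] at h2
  exact h2

/-- windows of the zoom are functions of windows -/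
theorem win_up (l : Leaf S s.Q E) (hl : Nul S (fun k => (Z.l k).leak (l.win Z.c k))) {b : ℝ} (hb : 0 ≤ b) :
    PLe ((Z.leaf l hl).win b) (Z.upz (l.win (Z.c + Z.e * b))) := by
  have h1 := Z.zLa_wz l hb
  have h2 := Z.fr_PLe l.Y b (fun k => Z.wz l b k ⊓ Z.zLa l k)
    (Eventually.of_forall fun k ω ω' _ _ _ r => ⟨r.2.2, r.1.2⟩)
  have h3 : PLe (S := Z.sp) (fun k => fc (Z.wz l b k ⊓ Z.zLa l k : Setoid (Z.sp.F k).Ω))
      (fun k => fc (Z.wz l b k : Setoid (Z.sp.F k).Ω)) :=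
    PLe_inf (S := Z.sp) (A := Z.wz l b) (B := Z.zLa l) (X := fun k => fc (Z.wz l b k : Setoid (Z.sp.F k).Ω))
      (PLe.refl _) h1
  have h4 := PLe.trans (S := Z.sp) h2 h3
  have h5 := PLe_inf (S := Z.sp) (A := Z.zLa l) (B := fun k => Setoid.ker ((Z.fr l.Y).cellv b k)) h1 h4
  exact h5

/-- windows are functions of windows of the zoom -/
theorem up_win (l : Leaf S s.Q E) (hl : Nul S (fun k => (Z.l k).leak (l.win Z.c k))) (b : ℝ) :
    PLe (Z.upz (l.win (Z.c + Z.e * b))) ((Z.leaf l hl).win b) := by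
  have h1 : PLe (S := Z.sp) (fun k => fc (Setoid.comap (Z.l k).p.π (l.La k) : Setoid (Z.sp.F k).Ω))
      (fun k => fc (Z.zLa l k ⊓ Setoid.ker ((Z.fr l.Y).cellv b k) : Setoid (Z.sp.F k).Ω)) :=
    PLe_of_le (S := Z.sp) fun k => fc_le fun ω ω' _ _ _ r => r.1.1
  have h2 := Z.fr_PLe' l.Y b (fun k => Z.zLa l k ⊓ Setoid.ker ((Z.fr l.Y).cellv b k))
    (Eventually.of_forall fun k ω ω' _ _ _ r => ⟨r.1.2, r.2⟩)
  have h3 := PLe_inf (S := Z.sp) (A := fun k => (Setoid.comap (Z.l k).p.π (l.La k) : Setoid (Z.sp.F k).Ω))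
    (B := fun k => (Setoid.comap (Z.l k).p.π (Setoid.ker (l.Y.cellv (Z.c + Z.e * b) k)) : Setoid (Z.sp.F k).Ω)) h1 h2
  exact h3

/-- CONDITIONS OF THE ZOOM -/
theorem cnd_up {b : ℝ} (hb : 0 ≤ b) (i : Option ι) : PLe (Z.sys.cnd b i) (Z.upz (s.cnd (Z.c + Z.e * b) i)) := by
  rcases i with _ | i
  · exact Z.pcd_up
  · exact Z.win_up (s.lf i) (Z.dm (some i)) hb

theorem up_cnd (b : ℝ) (i : Option ι) : PLe (Z.upz (s.cnd (Z.c + Z.e * b) i)) (Z.sys.cnd b i) := by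
  rcases i with _ | i
  · exact Z.up_pcd
  · exact Z.up_win (s.lf i) (Z.dm (some i)) b

theorem c_le {b : ℝ} (hb : 0 ≤ b) : Z.c ≤ Z.c + Z.e * b := by
  have := mul_nonneg Z.e_pos.le hb
  linarith

/-- labels of the zoom, in terms of the conditions of the system -/
theorem DMc_iff {b : ℝ} (hb : 0 ≤ b) {y : Lab Z.sp} :
    Z.sys.DMc b y ↔ y.DMf (fun i => Z.upz (s.cnd (Z.c + Z.e * b) i)) :=
  ⟨fun h => Lab.DMf.mono h fun i => ⟨i, Z.cnd_up hb i⟩, fun h => Lab.DMf.mono h fun i => ⟨i, Z.up_cnd b i⟩⟩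

theorem IsKap_iff {b : ℝ} (hb : 0 ≤ b) {y : Lab Z.sp} :
    Z.sys.IsKap b y ↔ y.IsMaxf (fun i => Z.upz (s.cnd (Z.c + Z.e * b) i)) :=
  ⟨fun h => Lab.IsMaxf.congr h (fun i => ⟨i, Z.cnd_up hb i⟩) (fun i => ⟨i, Z.up_cnd b i⟩),
    fun h => Lab.IsMaxf.congr h (fun i => ⟨i, Z.up_cnd b i⟩) (fun i => ⟨i, Z.cnd_up hb i⟩)⟩

/-- labels of the zoom as labels of the system -/
def cl (y : Lab Z.sp) : Lab S := Z.l.comp Z.e Z.e_pos y

/-- labels of the system over the label of the zoom -/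
def ov (y : Lab S) : Lab Z.sp := Z.l.ovl Z.e Z.e_pos y

/-- LABELS OF THE ZOOM ARE LABELS OF THE SYSTEM -/
theorem DMc_cl {b : ℝ} (hb : 0 ≤ b) {y : Lab Z.sp} (hy : Z.sys.DMc b y) : s.DMc (Z.c + Z.e * b) (Z.cl y) :=
  Lab.DMf.comp (Z.dm.mono (Z.c_le hb)) ((Z.DMc_iff hb).mp hy)

/-- labels of the system are labels of the zoom -/
theorem DMc_ov {b : ℝ} (hb : 0 ≤ b) {y : Lab S} (hy : s.DMc (Z.c + Z.e * b) y) : Z.sys.DMc b (Z.ov y) :=
  (Z.DMc_iff hb).mpr (Lab.DMf.ovl hy Z.l Z.e Z.e_pos)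

/-- MAXIMAL LABELS OF THE ZOOM ARE MAXIMAL LABELS OF THE SYSTEM -/
theorem IsKap_cl [Countable ι] {b : ℝ} (hb : 0 ≤ b) {y : Lab Z.sp} (hy : Z.sys.IsKap b y) :
    s.IsKap (Z.c + Z.e * b) (Z.cl y) :=
  Lab.IsMaxf.comp_max (i := none) (Z.dm.mono (Z.c_le hb)) ((Z.IsKap_iff hb).mp hy) (pcd_Bd s.Q)

theorem IsKap_of_cl {b : ℝ} (hb : 0 ≤ b) {y : Lab Z.sp} (h : s.IsKap (Z.c + Z.e * b) (Z.cl y))
    (hy : Z.sys.DMc b y) : Z.sys.IsKap b y :=
  (Z.IsKap_iff hb).mpr (Lab.IsMaxf.ovr (i₀ := none) h (Z.dm.mono (Z.c_le hb)) ((Z.DMc_iff hb).mp hy) (pcd_Bd s.Q))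

/-- maximal labels of the system are maximal labels of the zoom -/
theorem IsKap_ov {b : ℝ} (hb : 0 ≤ b) {y : Lab S} (h : s.IsKap (Z.c + Z.e * b) y) : Z.sys.IsKap b (Z.ov y) := by
  have h1 := Z.DMc_ov hb h.1
  refine Z.IsKap_of_cl hb ⟨Z.DMc_cl hb h1, fun l' hl' => ?_⟩ h1
  refine (h.2 l' hl').trans ?_
  exact Lab.DMf.le_ovl_info (i := none) (Z.dm.mono (Z.c_le hb)) h.1 (pcd_Bd s.Q)

/-- over a maximal label of the window `c` the zoom is connected at the window `0` -/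
theorem Con_zero (h : s.IsKap Z.c Z.l) : Z.sys.Con 0 := by
  have h1 : Lab.Conf (fun i => Z.upz (s.cnd Z.c i)) := Lab.IsMaxf.conf (i₀ := none) h (pcd_Bd s.Q)
  refine Lab.Conf.mono h1 fun i => ⟨i, ?_⟩
  have h2 := Z.cnd_up le_rfl i
  rw [mul_zero, add_zero] at h2
  exact h2

/-- the window `b` of the zoom is the window `a` of the system -/
theorem win_rel {a : ℝ} : Z.c + Z.e * ((a - Z.c) / Z.e) = a := by
  have := Z.e_pos.ne'
  field_simp
  ring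

end ZM

/-- the partition of the cells of level `c` of the point in the space of a label -/
def cW (s : MSys S M E ι) (c : ℝ) (l : Lab S) (k : ℕ) : Setoid (l k).T.Ω :=
  Setoid.comap (l k).p.π (Setoid.ker (s.Q.cellv c k))

theorem cW_nul (s : MSys S M E ι) {c : ℝ} (h0 : 0 ≤ c) (h1 : c ≤ 1) (l : Lab S) (i : Option ι) :
    Nul S (fun k => h (fc (cW s c l k) : FL (l k).T) ((l k).v ⊔ (l k).p.map (s.cnd c i k))) := by
  have h2 := s.dg_cnd h0 h1 i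
  refine h2.of_le (Eventually.of_forall fun k => h_nonneg _ _) (Eventually.of_forall fun k => ?_)
  refine (h_anti (le_sup_right : (l k).p.map (s.cnd c i k) ≤ _)).trans ?_
  exact ((l k).p.h_map (fc (Setoid.ker (s.Q.cellv c k))) (s.cnd c i k)).le

/-- a label with the cells of level `c` of the point -/
def cL (s : MSys S M E ι) (c : ℝ) (l : Lab S) : Lab S := l.addW (cW s c l)

theorem cL_DMc {s : MSys S M E ι} {c : ℝ} (h0 : 0 ≤ c) (h1 : c ≤ 1) {l : Lab S} (hl : s.DMc c l) :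
    s.DMc c (cL s c l) := Lab.DMf.addW hl _ (cW_nul s h0 h1 l)

theorem cL_kap {s : MSys S M E ι} {c : ℝ} (h0 : 0 ≤ c) (h1 : c ≤ 1) {l : Lab S} (hl : s.IsKap c l) :
    s.IsKap c (cL s c l) := (hl.dg h0 h1).2

/-- THE DATA OF A ZOOM from a Markov label of the window `c` -/
def MSys.mkz (s : MSys S M E ι) {c : ℝ} (h0 : 0 ≤ c) (h1 : c < 1) {l : Lab S} (hl : s.DMc c l) : ZM s where
  l := cL s c l
  c := c
  h0 := h0
  h1 := h1
  dm := cL_DMc h0 h1.le hl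
  cell := fun _ _ _ _ _ hV _ => hV.2

theorem MSys.mkz_kap (s : MSys S M E ι) {c : ℝ} (h0 : 0 ≤ c) (h1 : c < 1) {l : Lab S} (hl : s.IsKap c l) :
    s.IsKap c (s.mkz h0 h1 hl.1).l := cL_kap h0 h1.le hl

end

end Pool.Agent.Helper84.MT
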