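import Pool.Agent.Helper26.MT.Zc

/-! MULTI-TYPE LAYER: entropies over labels of a zoom; `STm` at the window `0` for all systems gives `STm` at all
windows. -/

set_option autoImplicit false

namespace Pool.Agent.Helper40.EL

open Finset Filter Topology Pool.Agent.Helper69.RK Pool.Agent.Helper31.EC

noncomputable section

namespace FLab

variable {F : FSp} (l : FLab F) (c : ℝ) (hc : 0 < c) (l2 : FLab (l.ovr c hc))

/-- conditional entropies over a composed label -/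
theorem comp_h (x y : FL F) : h ((l.comp c hc l2).p.map x) ((l.comp c hc l2).p.map y ⊔ (l.comp c hc l2).v) =
    h (l2.p.map (l.up c hc x)) (l2.p.map (l.up c hc y) ⊔ l2.v) := by
  have e1 : ∀ x : FL F, l2.p.map (l.up c hc x) = (l.cr c hc l2).map ((l.comp c hc l2).p.map x) := by
    intro x
    induction x using fc_ind
    rfl
  have e2 : l2.v = (l.cr c hc l2).map (fc l2.V : FL (l.comp c hc l2).T) := rfl
  have e3 : (fc (l.cr c hc l2).W : FL (l.comp c hc l2).T) = (l.cq c hc l2).map l.v := rfl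
  rw [e1, e1, e2, ← (l.cr c hc l2).map_sup, (l.cr c hc l2).h_map, e3, comp_v]
  congr 1
  rw [sup_assoc, sup_comm (fc l2.V : FL (l.comp c hc l2).T)]

end FLab

namespace Lab

variable {S : Sp} (l : Lab S) (c : ℝ) (hc : 0 < c)

/-- rates over a label over a label -/
theorem hr_comp (y : Lab (l.ovr c hc)) (X Y : S.L) : h (up1 (l.comp c hc y) X) (up1 (l.comp c hc y) Y) =
    c * h (up1 y (l.upL c hc X)) (up1 y (l.upL c hc Y)) := by
  rw [(l.comp c hc y).hr_upL, y.hr_upL, div_one, div_one]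
  have hX := l.rp_upL c hc X
  have hY := l.rp_upL c hc Y
  -- replace the representatives
  have key : ul (fun k => h ((y k).p.map (rp (l.upL c hc X) k)) ((y k).p.map (rp (l.upL c hc Y) k) ⊔ (y k).v) /
      ((l.ovr c hc).F k).n) = ul (fun k => h ((y k).p.map (l.up c hc (rp X) k))
        ((y k).p.map (l.up c hc (rp Y) k) ⊔ (y k).v) / ((l.ovr c hc).F k).n) := by
    have hu1 : ∀ B : ∀ k, FL (y k).T, UB (fun k => h ((y k).p.map (rp (l.upL c hc X) k)) (B k) /
        ((l.ovr c hc).F k).n) := by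
      intro B
      refine UB.sandwich (UB_const 0) ((rp_Bd (l.upL c hc X)).ub (fun _ => ⊥)) ?_ ?_
      · exact Eventually.of_forall fun k => div_nonneg (h_nonneg _ _) ((l.ovr c hc).F k).pos.le
      · refine Eventually.of_forall fun k => div_le_div_of_nonneg_right ?_ ((l.ovr c hc).F k).pos.le
        rw [h_bot, ← (y k).p.H_map]
        exact h_le_H _ _
    have t0 : Tendsto (fun k => h (rp (l.upL c hc X) k) (l.up c hc (rp X) k) / ((l.ovr c hc).F k).n +
        h (l.up c hc (rp X) k) (rp (l.upL c hc X) k) / ((l.ovr c hc).F k).n +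
        (h (rp (l.upL c hc Y) k) (l.up c hc (rp Y) k) / ((l.ovr c hc).F k).n +
        h (l.up c hc (rp Y) k) (rp (l.upL c hc Y) k) / ((l.ovr c hc).F k).n)) UF (𝓝 0) := by
      have a1 := Tendsto.add hX.1 hX.2
      have a2 := Tendsto.add hY.1 hY.2
      have a3 := a1.add a2
      rw [add_zero, add_zero] at a3
      exact a3
    have ineq : ∀ (k : ℕ) (A A' B B' : FL ((l.ovr c hc).F k)),
        h ((y k).p.map A) ((y k).p.map B ⊔ (y k).v) ≤ h ((y k).p.map A') ((y k).p.map B' ⊔ (y k).v) +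
          (h A A' + h B' B) := by
      intro k A A' B B'
      have a1 := h_triangle ((y k).p.map A) ((y k).p.map A') ((y k).p.map B ⊔ (y k).v)
      have a2 : h ((y k).p.map A) ((y k).p.map A' ⊔ ((y k).p.map B ⊔ (y k).v)) ≤ h A A' := by
        rw [← (y k).p.h_map]
        exact h_anti le_sup_left
      have a3 := h_triangle ((y k).p.map A') ((y k).p.map B') ((y k).p.map B ⊔ (y k).v)
      have a4 : h ((y k).p.map B') ((y k).p.map B ⊔ (y k).v) ≤ h B' B := by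
        rw [← (y k).p.h_map]
        exact h_anti le_sup_left
      have a5 : h ((y k).p.map A') ((y k).p.map B' ⊔ ((y k).p.map B ⊔ (y k).v)) ≤
          h ((y k).p.map A') ((y k).p.map B' ⊔ (y k).v) :=
        h_anti (sup_le_sup_left le_sup_right _)
      linarith
    have t1 := ul_tendsto (hu1 (fun k => (y k).p.map (rp (l.upL c hc Y) k) ⊔ (y k).v))
    have t2 : Tendsto (fun k => h ((y k).p.map (l.up c hc (rp X) k)) ((y k).p.map (l.up c hc (rp Y) k) ⊔ (y k).v) /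
        ((l.ovr c hc).F k).n) UF (𝓝 (ul (fun k => h ((y k).p.map (rp (l.upL c hc X) k))
          ((y k).p.map (rp (l.upL c hc Y) k) ⊔ (y k).v) / ((l.ovr c hc).F k).n))) := by
      have b1 := t1.sub t0
      have b2 := t1.add t0
      rw [sub_zero] at b1
      rw [add_zero] at b2
      refine tendsto_of_tendsto_of_tendsto_of_le_of_le b1 b2 (fun k => ?_) (fun k => ?_)
      · show h ((y k).p.map (rp (l.upL c hc X) k)) ((y k).p.map (rp (l.upL c hc Y) k) ⊔ (y k).v) /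
            ((l.ovr c hc).F k).n - _ ≤ _
        have a := ineq k (rp (l.upL c hc X) k) (l.up c hc (rp X) k) (rp (l.upL c hc Y) k) (l.up c hc (rp Y) k)
        have n1 := h_nonneg (l.up c hc (rp X) k) (rp (l.upL c hc X) k)
        have n2 := h_nonneg (rp (l.upL c hc Y) k) (l.up c hc (rp Y) k)
        rw [← add_div, ← add_div, ← add_div, ← sub_div]
        apply div_le_div_of_nonneg_right _ ((l.ovr c hc).F k).pos.le
        linarith
      · show _ ≤ h ((y k).p.map (rp (l.upL c hc X) k)) ((y k).p.map (rp (l.upL c hc Y) k) ⊔ (y k).v) /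
            ((l.ovr c hc).F k).n + _
        have a := ineq k (l.up c hc (rp X) k) (rp (l.upL c hc X) k) (l.up c hc (rp Y) k) (rp (l.upL c hc Y) k)
        have n1 := h_nonneg (rp (l.upL c hc X) k) (l.up c hc (rp X) k)
        have n2 := h_nonneg (l.up c hc (rp Y) k) (rp (l.upL c hc Y) k)
        rw [← add_div, ← add_div, ← add_div, ← add_div]
        apply div_le_div_of_nonneg_right _ ((l.ovr c hc).F k).pos.le
        linarith
    exact (ul_eq t2).symm
  rw [key]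
  have hu2 : UB (fun k => h ((y k).p.map (l.up c hc (rp X) k)) ((y k).p.map (l.up c hc (rp Y) k) ⊔ (y k).v) /
      ((l.ovr c hc).F k).n) := by
    have hB : (l.up c hc (rp X)).Bd := by
      have h1 : l.up c hc (rp X) = rpI (l.upI c hc (rpo X)) := rfl
      rw [h1]
      exact rpI_Bd _
    refine UB.sandwich (UB_const 0) (hB.ub (fun _ => ⊥)) ?_ ?_
    · exact Eventually.of_forall fun k => div_nonneg (h_nonneg _ _) ((l.ovr c hc).F k).pos.le
    · refine Eventually.of_forall fun k => div_le_div_of_nonneg_right ?_ ((l.ovr c hc).F k).pos.le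
      rw [h_bot, ← (y k).p.H_map]
      exact h_le_H _ _
  rw [← ul_const_mul _ hu2]
  congr 1
  funext k
  have e1 : h ((l.comp c hc y k).p.map (rp X k)) ((l.comp c hc y k).p.map (rp Y k) ⊔ (l.comp c hc y k).v) =
      h ((y k).p.map (l.up c hc (rp X) k)) ((y k).p.map (l.up c hc (rp Y) k) ⊔ (y k).v) :=
    (l k).comp_h c hc (y k) (rp X k) (rp Y k)
  rw [e1, n_over]
  have := (S.F k).pos
  field_simp

theorem H_comp (y : Lab (l.ovr c hc)) (X : S.L) : H (up1 (l.comp c hc y) X) = c * H (up1 y (l.upL c hc X)) := by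
  have h1 := l.hr_comp c hc y X ⊥
  have e1 : up1 (l.comp c hc y) ⊥ = ⊥ := (l.comp c hc y).upL_bot 1 one_pos
  have e2 : up1 y (l.upL c hc ⊥) = ⊥ := by
    rw [l.upL_bot]
    exact y.upL_bot 1 one_pos
  rw [e1, e2, h_bot, h_bot] at h1
  exact h1

end Lab

end

end Pool.Agent.Helper40.EL

namespace Pool.Agent.Helper84.MT

open Finset Filter Topology Matrix Pool.Agent.Helper69.RK Pool.Agent.Helper31.EC Pool.Agent.Helper31.EC.Sp
open Pool.Agent.Helper40.EL Pool.Agent.Helper89.LX Pool.Agent.Helper3.LF Pool.Agent.Helper26.MZ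
open Pool.Agent.Helper95.LF

noncomputable section

variable {S : Sp} {M D : ℕ} {E : ℕ → ℕ} {ι : Type}

/-- entropies over maximal labels do not depend on the label -/
theorem MSys.IsKap.H_eq {s : MSys S M E ι} {c : ℝ} {l l' : Lab S} (hl : s.IsKap c l) (hl' : s.IsKap c l') (Y : S.L) :
    H (up1 l Y) = H (up1 l' Y) :=
  le_antisymm (Lab.H_le_of_univ (Lab.IsMaxf.univ (i := none) hl hl'.1 (pcd_Bd s.Q)) Y)
    (Lab.H_le_of_univ (Lab.IsMaxf.univ (i := none) hl' hl.1 (pcd_Bd s.Q)) Y)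

theorem MSys.IsKap.h_eq {s : MSys S M E ι} {c : ℝ} {l l' : Lab S} (hl : s.IsKap c l) (hl' : s.IsKap c l') (X Y : S.L) :
    h (up1 l X) (up1 l Y) = h (up1 l' X) (up1 l' Y) := by
  have h1 : h (up1 l X) (up1 l Y) = H (up1 l X ⊔ up1 l Y) - H (up1 l Y) := rfl
  have h2 : h (up1 l' X) (up1 l' Y) = H (up1 l' X ⊔ up1 l' Y) - H (up1 l' Y) := rfl
  rw [h1, h2, ← up1_sup, ← up1_sup, hl.H_eq hl', hl.H_eq hl']

/-- entropies over a maximal label are the smallest -/
theorem MSys.IsKap.H_le {s : MSys S M E ι} {c : ℝ} {l l' : Lab S} (hl : s.IsKap c l) (hl' : s.DMc c l') (Y : S.L) :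
    H (up1 l Y) ≤ H (up1 l' Y) := Lab.H_le_of_univ (Lab.IsMaxf.univ (i := none) hl hl' (pcd_Bd s.Q)) Y

namespace ZM

variable {s : MSys S M E ι} (Z : ZM s)

/-- elements of the lattice in the space of the zoom -/
abbrev U (x : S.L) : Z.sp.L := Z.l.upL Z.e Z.e_pos x

/-- digits of the remainder of a variable whose cell of level `c` is known to the base -/
theorem fr_dg {p : ℕ} (y : S.VV p) (hy : ∀ k ω ω', (Z.l k).T.μ ω ≠ 0 → (Z.l k).T.μ ω' ≠ 0 → (Z.l k).V ω ω' →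
    (Z.l k).T.Z ω ω' → y.cellv Z.c k ((Z.l k).p.π ω) = y.cellv Z.c k ((Z.l k).p.π ω')) (w : ℝ) :
    (Z.fr y).dg w = Z.U (y.dg (Z.c + Z.e * w)) := by
  have hd : ∀ k, Z.sp.dl (Z.c / Z.e + w) k = S.dl Z.c k * Z.sp.dl w k := by
    intro k
    rw [sp_dl', ← dl_rel]
    congr 1
    have := Z.e_pos.ne'
    field_simp
  have e1 : Z.U (y.dg (Z.c + Z.e * w)) = ((Z.l.pj.vv y).chg Z.l.V Z.e Z.e_pos).dg (Z.c / Z.e + w) := by
    rw [VV.chg_dg, ← Z.l.pj.map_dg]
    have : Z.e * (Z.c / Z.e + w) = Z.c + Z.e * w := by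
      have := Z.e_pos.ne'
      field_simp
    rw [this]
    rfl
  rw [e1]
  apply le_antisymm
  · apply VV.dg_le_dg (S := Z.sp) _ _ _ _ (fun _ _ => True) Typ_true (fun _ => 1) (Z.sp.Sub_const zero_le_one)
    refine Eventually.of_forall fun k ω ω' a b _ _ g g' i => ?_
    obtain ⟨g1, g2, -⟩ := Z.hZ k ω ω' a b g
    have h3 := Z.fr_sub y k ω ω' (hy k ω ω' a b g1 g2) i
    have h4 : |y.v k ((Z.l k).p.π ω) i - y.v k ((Z.l k).p.π ω') i| ≤ Z.sp.dl (Z.c / Z.e + w) k := g' i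
    rw [h3, hd, abs_mul, abs_of_pos (S.dl_pos Z.c k)] at h4
    rw [one_mul]
    exact le_of_mul_le_mul_left h4 (S.dl_pos Z.c k)
  · apply VV.dg_le_dg (S := Z.sp) _ _ _ _ (fun _ _ => True) Typ_true (fun _ => 1) (Z.sp.Sub_const zero_le_one)
    refine Eventually.of_forall fun k ω ω' a b _ _ g g' i => ?_
    obtain ⟨g1, g2, -⟩ := Z.hZ k ω ω' a b g
    have h3 := Z.fr_sub y k ω ω' (hy k ω ω' a b g1 g2) i
    show |y.v k ((Z.l k).p.π ω) i - y.v k ((Z.l k).p.π ω') i| ≤ 1 * Z.sp.dl (Z.c / Z.e + w) k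
    rw [h3, hd, abs_mul, abs_of_pos (S.dl_pos Z.c k), one_mul]
    exact mul_le_mul_of_nonneg_left (g' i) (S.dl_pos Z.c k).le

/-- digits of the point of the zoom -/
theorem Q_dg (w : ℝ) : Z.sys.Q.dg w = Z.U (s.Q.dg (Z.c + Z.e * w)) := Z.fr_dg s.Q Z.cell w

theorem Q_dg_one : Z.sys.Q.dg 1 = Z.U (s.Q.dg 1) := by
  rw [Q_dg, mul_one, Z.c_add_e]

/-- rates over labels of the zoom -/
theorem h_cl (y : Lab Z.sp) (X Y : S.L) : h (up1 (Z.cl y) X) (up1 (Z.cl y) Y) =
    Z.e * h (up1 y (Z.U X)) (up1 y (Z.U Y)) := Z.l.hr_comp Z.e Z.e_pos y X Y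

theorem H_cl (y : Lab Z.sp) (X : S.L) : H (up1 (Z.cl y) X) = Z.e * H (up1 y (Z.U X)) :=
  Z.l.H_comp Z.e Z.e_pos y X

/-- entropies over maximal labels of the zoom and of the system -/
theorem H_kap [Countable ι] {b : ℝ} (hb : 0 ≤ b) {L : Lab S} (hL : s.IsKap (Z.c + Z.e * b) L) {y : Lab Z.sp}
    (hy : Z.sys.IsKap b y) (X : S.L) : H (up1 L X) = Z.e * H (up1 y (Z.U X)) := by
  rw [← Z.H_cl, hL.H_eq (Z.IsKap_cl hb hy)]

theorem h_kap [Countable ι] {b : ℝ} (hb : 0 ≤ b) {L : Lab S} (hL : s.IsKap (Z.c + Z.e * b) L) {y : Lab Z.sp}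
    (hy : Z.sys.IsKap b y) (X Y : S.L) : h (up1 L X) (up1 L Y) = Z.e * h (up1 y (Z.U X)) (up1 y (Z.U Y)) := by
  rw [← Z.h_cl, hL.h_eq (Z.IsKap_cl hb hy)]

/-- THE POINT over maximal labels -/
theorem H_Q [Countable ι] {b : ℝ} (hb : 0 ≤ b) {L : Lab S} (hL : s.IsKap (Z.c + Z.e * b) L) {y : Lab Z.sp}
    (hy : Z.sys.IsKap b y) : H (up1 L (s.Q.dg 1)) = Z.e * H (up1 y (Z.sys.Q.dg 1)) := by
  rw [Q_dg_one]
  exact Z.H_kap hb hL hy _

/-- the inequality `vol ≤ H` for the window `b` of the zoom and for the window of the system -/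
theorem st_iff [Finite ι] (hD : 1 ≤ D) {b : ℝ} (hb : 0 ≤ b) {y : ∀ k, FD (Z.sp.F k) (Mon M D)}
    (hy : Z.sys.IsCan D b y) {x : ∀ k, FD (S.F k) (Mon M D)} (hx : s.IsCan D (Z.c + Z.e * b) x) :
    vol s.Q D x ≤ H (up1 (fun k => (x k).l) (s.Q.dg 1)) ↔
      vol Z.sys.Q D y ≤ H (up1 (fun k => (y k).l) (Z.sys.Q.dg 1)) := by
  rw [Z.vol_can hD hb hy hx, Z.H_Q hb hx.2 hy.2]
  constructor
  · intro h
    exact le_of_mul_le_mul_left h Z.e_pos
  · intro h
    exact mul_le_mul_of_nonneg_left h Z.e_pos.le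

/-- the gap `H - vol` is multiplied by `1 - c` -/
theorem gap_can [Finite ι] (hD : 1 ≤ D) {b : ℝ} (hb : 0 ≤ b) {y : ∀ k, FD (Z.sp.F k) (Mon M D)}
    (hy : Z.sys.IsCan D b y) {x : ∀ k, FD (S.F k) (Mon M D)} (hx : s.IsCan D (Z.c + Z.e * b) x) :
    H (up1 (fun k => (x k).l) (s.Q.dg 1)) - vol s.Q D x =
      Z.e * (H (up1 (fun k => (y k).l) (Z.sys.Q.dg 1)) - vol Z.sys.Q D y) := by
  rw [Z.vol_can hD hb hy hx, Z.H_Q hb hx.2 hy.2]
  ring

end ZM

/-- `STm` AT ALL WINDOWS -/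
theorem STm.win [Finite ι] (hst : STm D M E ι) (hD : 1 ≤ D) (s : MSys S M E ι) {c : ℝ} (h0 : 0 ≤ c) (h1 : c < 1)
    {x : ∀ k, FD (S.F k) (Mon M D)} (hx : s.IsCan D c x) :
    vol s.Q D x ≤ H (up1 (fun k => (x k).l) (s.Q.dg 1)) := by
  have hZ : s.DMc c (fun k => (x k).l) := hx.2.1
  obtain ⟨y, hy⟩ := (s.mkz h0 h1 hZ).sys.exists_can D 0
  have hx' : s.IsCan D ((s.mkz h0 h1 hZ).c + (s.mkz h0 h1 hZ).e * 0) x := by
    have e1 : (s.mkz h0 h1 hZ).c + (s.mkz h0 h1 hZ).e * 0 = c := by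
      rw [mul_zero, add_zero]
      rfl
    rw [e1]
    exact hx
  rw [(s.mkz h0 h1 hZ).st_iff hD le_rfl hy hx']
  exact hst _ _ y hy

end

end Pool.Agent.Helper84.MT
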