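import Pool.Agent.Helper26.MT.Zo

/-! MULTI-TYPE LAYER: canonical forms of a zoom. `IsCan` for the window `b` of the zoom and for the window
`c + (1 - c) b` of the system; digits and entropies; `STm` at all windows. -/

set_option autoImplicit false

namespace Pool.Agent.Helper84.MT

open Finset Filter Topology Matrix Pool.Agent.Helper69.RK Pool.Agent.Helper31.EC Pool.Agent.Helper31.EC.Sp
open Pool.Agent.Helper40.EL Pool.Agent.Helper89.LX Pool.Agent.Helper3.LF Pool.Agent.Helper26.MZ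
open Pool.Agent.Helper95.LF
open Pool.Agent.Helper3.PR (cutm cutm_cpd cutFD cut_typ exp_le)
open Pool.Agent.Helper3.ZM (aff MM afm afm_symm afm_nonneg phi_afm)
open Pool.Agent.Helper14.MC (adf_sub gx vx vol_eq vx_UB vx_nonneg vol_opt_le vol_opt_eq)

noncomputable section

variable {S : Sp} {M D : ℕ} {E : ℕ → ℕ} {ι : Type}

namespace ZM

variable {s : MSys S M E ι} (Z : ZM s)

/-! ### determinants of the homotheties -/

/-- the determinant of the homothety -/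
def dM (D : ℕ) (k : ℕ) (ω : (S.F k).Ω) : ℝ := (MM D (Z.o0 k ω) (S.dl Z.c k)).det

/-- the determinant of the inverse homothety -/
def dI (D : ℕ) (k : ℕ) (ω : (S.F k).Ω) : ℝ := (MM D (Z.oi k ω) (S.dl Z.c k)⁻¹).det

theorem dI_dM (D : ℕ) (k : ℕ) (ω : (S.F k).Ω) : Z.dI D k ω * Z.dM D k ω = 1 :=
  MM_det (Z.o0 k ω) (S.dl_pos Z.c k).ne'

theorem dM_ne (D : ℕ) (k : ℕ) (ω : (S.F k).Ω) : Z.dM D k ω ≠ 0 := by
  intro h
  have := Z.dI_dM D k ω
  rw [h, mul_zero] at this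
  exact zero_ne_one this

theorem dI_ne (D : ℕ) (k : ℕ) (ω : (S.F k).Ω) : Z.dI D k ω ≠ 0 := by
  intro h
  have := Z.dI_dM D k ω
  rw [h, zero_mul] at this
  exact zero_ne_one this

/-- the logarithm of the determinant -/
def sh (D : ℕ) (k : ℕ) (ω : (S.F k).Ω) : ℝ := Real.logb 2 (Z.dM D k ω ^ 2)

theorem sh_neg (D : ℕ) (k : ℕ) (ω : (S.F k).Ω) : Real.logb 2 (Z.dI D k ω ^ 2) = -Z.sh D k ω := by
  have h1 : Z.dI D k ω ^ 2 * Z.dM D k ω ^ 2 = 1 := by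
    rw [← mul_pow, dI_dM, one_pow]
  have h2 : 0 < Z.dI D k ω ^ 2 := by have := Z.dI_ne D k ω; positivity
  have h3 : 0 < Z.dM D k ω ^ 2 := by have := Z.dM_ne D k ω; positivity
  have h4 := congrArg (Real.logb 2) h1
  rw [Real.logb_mul h2.ne' h3.ne', Real.logb_one] at h4
  unfold sh
  linarith

theorem pd_one : PdM (1 : Matrix (Mon M D) (Mon M D) ℝ) :=
  pdM_of_one_le Matrix.isSymm_one fun x => by rw [qf_one']

theorem sh_ub : ∀ᶠ k in UF, ∀ ω, (Z.l k).T.μ ω ≠ 0 → Z.sh D k ((Z.l k).p.π ω) ≤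
    Fintype.card (Mon M D) * (((gaq Z.sys.Q D).C + 1) * (Z.sp.F k).n) := by
  obtain ⟨K1, hK1, h1⟩ := (gaq Z.sys.Q D).one
  obtain ⟨K2, hK2, h2⟩ := (gaq s.Q D).one
  have hc := cpd_ev (Φ := gaq Z.sys.Q D) (fun k => K1 k + K2 k) (hK1.add (Z.Sub_sp.mp hK2))
  filter_upwards [h1, h2, hc] with k a b c ω hω
  have hA := one_afm_pd (Z.o0 k ((Z.l k).p.π ω)) (S.dl Z.c k) (A := (1 : Matrix (Mon M D) (Mon M D) ℝ))
    Matrix.isSymm_one pd_one.nonneg
  have h4 : (gaq Z.sys.Q D).φ k ω (1 + afm (Z.o0 k ((Z.l k).p.π ω)) (S.dl Z.c k) 1) =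
      (gaq Z.sys.Q D).φ k ω 1 + (gaq s.Q D).φ k ((Z.l k).p.π ω) 1 := by
    have h5 : (gaq Z.sys.Q D).φ k ω (1 + afm (Z.o0 k ((Z.l k).p.π ω)) (S.dl Z.c k) 1) =
      (gaq Z.sys.Q D).φ k ω 1 + phi (Z.sp.dl 1 k) (afm (Z.o0 k ((Z.l k).p.π ω)) (S.dl Z.c k) 1)
        ((Z.fr s.Q).v k ω) := (gaq Z.sys.Q D).add k _ _ _
    rw [h5, phi_afm, Z.dl_eq', ← Z.aff_fr]
    rfl
  have h6 := c ω hω (1 + afm (Z.o0 k ((Z.l k).p.π ω)) (S.dl Z.c k) 1) hA.1
    (one_afm_ge _ _ pd_one.nonneg) (by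
      rw [h4]
      exact add_le_add (a ω hω) (b _ (Z.supp k ω hω)))
  have h7 := det_afm_le (D := D) (Z.o0 k ((Z.l k).p.π ω)) (Z.dM_ne D k ((Z.l k).p.π ω)) pd_one hA.1
    (afm_le_one_afm _ _ _)
  rw [Matrix.det_one, mul_one] at h7
  have h8 : 0 < Z.dM D k ((Z.l k).p.π ω) ^ 2 := by
    have := Z.dM_ne D k ((Z.l k).p.π ω)
    positivity
  have h9 : Z.sh D k ((Z.l k).p.π ω) ≤
      Real.logb 2 (1 + afm (Z.o0 k ((Z.l k).p.π ω)) (S.dl Z.c k) (1 : Matrix (Mon M D) (Mon M D) ℝ)).det :=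
    Real.logb_le_logb_of_le (by norm_num) h8 h7
  refine h9.trans ?_
  have h10 := logdet_le ((gaq Z.sys.Q D).one_le_cp k) h6
  rw [(gaq Z.sys.Q D).logb_cp] at h10
  exact h10

theorem sh_lb : ∀ᶠ k in UF, ∀ ω, (Z.l k).T.μ ω ≠ 0 → -Z.sh D k ((Z.l k).p.π ω) ≤
    Fintype.card (Mon M D) * (((gaq s.Q D).C + 1) * (S.F k).n) := by
  obtain ⟨K1, hK1, h1⟩ := (gaq s.Q D).one
  obtain ⟨K2, hK2, h2⟩ := (gaq Z.sys.Q D).one
  have hc := cpd_ev (Φ := gaq s.Q D) (fun k => K1 k + K2 k) (hK1.add (Z.Sub_sp.mpr hK2))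
  filter_upwards [h1, h2, hc] with k a b c ω hω
  have hA := one_afm_pd (Z.oi k ((Z.l k).p.π ω)) (S.dl Z.c k)⁻¹ (A := (1 : Matrix (Mon M D) (Mon M D) ℝ))
    Matrix.isSymm_one pd_one.nonneg
  have h4 : (gaq s.Q D).φ k ((Z.l k).p.π ω) (1 + afm (Z.oi k ((Z.l k).p.π ω)) (S.dl Z.c k)⁻¹ 1) =
      (gaq s.Q D).φ k ((Z.l k).p.π ω) 1 + (gaq Z.sys.Q D).φ k ω 1 := by
    have h5 : (gaq s.Q D).φ k ((Z.l k).p.π ω) (1 + afm (Z.oi k ((Z.l k).p.π ω)) (S.dl Z.c k)⁻¹ 1) =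
      (gaq s.Q D).φ k ((Z.l k).p.π ω) 1 + phi (S.dl 1 k) (afm (Z.oi k ((Z.l k).p.π ω)) (S.dl Z.c k)⁻¹ 1)
        (s.Q.v k ((Z.l k).p.π ω)) := (gaq s.Q D).add k _ _ _
    rw [h5, phi_afm, Z.dl_inv, Z.aff_fr']
    rfl
  have h6 := c _ (Z.supp k ω hω) (1 + afm (Z.oi k ((Z.l k).p.π ω)) (S.dl Z.c k)⁻¹ 1) hA.1
    (one_afm_ge _ _ pd_one.nonneg) (by
      rw [h4]
      exact add_le_add (a _ (Z.supp k ω hω)) (b ω hω))
  have h7 := det_afm_le (D := D) (Z.oi k ((Z.l k).p.π ω)) (Z.dI_ne D k ((Z.l k).p.π ω)) pd_one hA.1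
    (afm_le_one_afm _ _ _)
  rw [Matrix.det_one, mul_one] at h7
  have h8 : 0 < Z.dI D k ((Z.l k).p.π ω) ^ 2 := by
    have := Z.dI_ne D k ((Z.l k).p.π ω)
    positivity
  have h9 : Real.logb 2 (Z.dI D k ((Z.l k).p.π ω) ^ 2) ≤
      Real.logb 2 (1 + afm (Z.oi k ((Z.l k).p.π ω)) (S.dl Z.c k)⁻¹ (1 : Matrix (Mon M D) (Mon M D) ℝ)).det :=
    Real.logb_le_logb_of_le (by norm_num) h8 h7
  rw [sh_neg] at h9
  refine h9.trans ?_
  have h10 := logdet_le ((gaq s.Q D).one_le_cp k) h6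
  rw [(gaq s.Q D).logb_cp] at h10
  exact h10

/-- the average of the logarithm of the determinant -/
def sha (D : ℕ) (k : ℕ) : ℝ := (∑ ω, (S.F k).μ ω * Z.sh D k ω) / (S.F k).n

theorem sha_UB : UB (Z.sha D) := by
  have hCs := (gaq s.Q D).C0
  have hCz := (gaq Z.sys.Q D).C0
  refine ⟨max (Fintype.card (Mon M D) * ((gaq s.Q D).C + 1)) (Fintype.card (Mon M D) * (((gaq Z.sys.Q D).C + 1) * Z.e)), ?_⟩
  filter_upwards [Z.sh_ub (D := D), Z.sh_lb (D := D)] with k a b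
  have hn := (S.F k).pos
  have e1 : Z.sha D k = (∑ ω, (Z.l k).T.μ ω * Z.sh D k ((Z.l k).p.π ω)) / (S.F k).n := by
    unfold sha
    rw [sum_push (Z.l k).p (fun ω => Z.sh D k ω)]
  have e2 : -Z.sha D k = (∑ ω, (Z.l k).T.μ ω * -Z.sh D k ((Z.l k).p.π ω)) / (S.F k).n := by
    rw [e1, ← neg_div, ← Finset.sum_neg_distrib]
    congr 1
    exact Finset.sum_congr rfl fun ω _ => by ring
  rw [abs_le]
  constructor
  · have h1 : -Z.sha D k ≤ Fintype.card (Mon M D) * ((gaq s.Q D).C + 1) := by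
      rw [e2, div_le_iff₀ hn]
      refine (sum_mul_le _ _ b).trans (le_of_eq ?_)
      ring
    have h2 := le_max_left (Fintype.card (Mon M D) * ((gaq s.Q D).C + 1))
      (Fintype.card (Mon M D) * (((gaq Z.sys.Q D).C + 1) * Z.e))
    linarith
  · have h1 : Z.sha D k ≤ Fintype.card (Mon M D) * (((gaq Z.sys.Q D).C + 1) * Z.e) := by
      rw [e1, div_le_iff₀ hn]
      refine (sum_mul_le _ _ a).trans (le_of_eq ?_)
      rw [Z.sp_n]
      ring
    exact h1.trans (le_max_right _ _)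

/-! ### scores -/

theorem sc_out [Finite ι] {b : ℝ} (hb : 0 ≤ b) {y : ∀ k, FD (Z.sp.F k) (Mon M D)}
    (hy : (gaq Z.sys.Q D).Adf (Z.sys.cnd b) y) :
    Z.e * ul (fun k => (y k).sc / (Z.sp.F k).n) ≤ ul (fun k => (Z.out y k).sc / (S.F k).n) + ul (Z.sha D) := by
  have hx := Z.out_ad hb hy
  have hUy := (gaq Z.sys.Q D).sc_UBf hy
  have hUx := (gaq s.Q D).sc_UBf hx
  have hUs := Z.sha_UB (D := D)
  have e1 : (fun k => ∑ ω, (y k).l.T.μ ω * ((Real.logb 2 ((y k).g ω).det -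
      Z.sh D k ((Z.l k).p.π ((y k).l.p.π ω))) / (S.F k).n)) =
      fun k => Z.e * ((y k).sc / (Z.sp.F k).n) - Z.sha D k := by
    funext k
    have hn := (S.F k).pos
    have he := Z.e_pos
    have h1 : ∑ ω, (y k).l.T.μ ω * Z.sh D k ((Z.l k).p.π ((y k).l.p.π ω)) = ∑ ω, (S.F k).μ ω * Z.sh D k ω := by
      have h2 := sum_push (y k).l.p (fun ω => Z.sh D k ((Z.l k).p.π ω))
      have h3 := sum_push (Z.l k).p (fun ω => Z.sh D k ω)
      exact h2.trans h3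
    have h4 : ∀ ω, (y k).l.T.μ ω * ((Real.logb 2 ((y k).g ω).det -
      Z.sh D k ((Z.l k).p.π ((y k).l.p.π ω))) / (S.F k).n) =
      ((y k).l.T.μ ω * Real.logb 2 ((y k).g ω).det - (y k).l.T.μ ω * Z.sh D k ((Z.l k).p.π ((y k).l.p.π ω))) /
        (S.F k).n := fun ω => by ring
    rw [Finset.sum_congr rfl fun ω _ => h4 ω, ← Finset.sum_div, Finset.sum_sub_distrib, h1, Z.sp_n]
    unfold sha FD.sc
    field_simp
  have e2 : (fun k => ∑ ω, (y k).l.T.μ ω * (Real.logb 2 ((Z.out y k).g ω).det / (S.F k).n)) =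
      fun k => (Z.out y k).sc / (S.F k).n := by
    funext k
    have h4 : ∀ ω, (y k).l.T.μ ω * (Real.logb 2 ((Z.out y k).g ω).det / (S.F k).n) =
      ((y k).l.T.μ ω * Real.logb 2 ((Z.out y k).g ω).det) / (S.F k).n := fun ω => by ring
    rw [Finset.sum_congr rfl fun ω _ => h4 ω, ← Finset.sum_div]
    rfl
  have key := ul_avg_le (fun k => (y k).l.T) (fun k ω => Real.logb 2 ((Z.out y k).g ω).det / (S.F k).n)
    (fun k ω => (Real.logb 2 ((y k).g ω).det - Z.sh D k ((Z.l k).p.π ((y k).l.p.π ω))) / (S.F k).n)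
    (fun k ω => Cpd ((gaq s.Q D).cp k) (Z.zfm y k ω)) (fun _ => 0) tendsto_const_nhds
    (Fintype.card (Mon M D) * (((gaq Z.sys.Q D).C + 1) * Z.e) + Fintype.card (Mon M D) * ((gaq s.Q D).C + 1))
    (Z.out_typ hy) (by
      filter_upwards [hy 1 one_pos] with k h2 ω hω hE
      have hn := (S.F k).pos
      have a0 := Z.out_g k ω hE
      have hc := (h2.2.1 ω hω).1
      have hpd : PdM ((y k).g ω) := hc.pdM
      have h7 := det_afm_le (D := D) (Z.oi k ((Z.l k).p.π ((y k).l.p.π ω)))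
        (Z.dI_ne D k ((Z.l k).p.π ((y k).l.p.π ω))) hpd hE.1 (afm_le_one_afm _ _ _)
      have h8 : 0 < Z.dI D k ((Z.l k).p.π ((y k).l.p.π ω)) ^ 2 := by
        have := Z.dI_ne D k ((Z.l k).p.π ((y k).l.p.π ω))
        positivity
      have h9 : 0 < ((y k).g ω).det := lt_of_lt_of_le one_pos hc.one_le
      have h10 : Real.logb 2 (Z.dI D k ((Z.l k).p.π ((y k).l.p.π ω)) ^ 2 * ((y k).g ω).det) ≤
          Real.logb 2 (Z.zfm y k ω).det := Real.logb_le_logb_of_le (by norm_num) (by positivity) h7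
      rw [Real.logb_mul h8.ne' h9.ne', sh_neg] at h10
      rw [a0, add_zero]
      apply div_le_div_of_nonneg_right _ hn.le
      linarith) (by
      filter_upwards [hy 1 one_pos, Z.sh_lb (D := D)] with k h2 h3 ω hω
      have hn := (S.F k).pos
      have hc := (h2.2.1 ω hω).1
      have h4 := logdet_le ((gaq Z.sys.Q D).one_le_cp k) hc
      rw [(gaq Z.sys.Q D).logb_cp, Z.sp_n] at h4
      have h5 := h3 _ ((y k).l.p.supp ω hω)
      rw [div_le_iff₀ hn]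
      linarith) (by
      filter_upwards [hx 1 one_pos] with k h2 ω hω
      exact div_nonneg (logdet_nonneg (h2.2.1 ω hω).1) (S.F k).pos.le)
    (by rw [e1]; exact (hUy.const_mul Z.e).sub hUs) (by rw [e2]; exact hUx)
  rw [e1, e2, ul_sub (hUy.const_mul Z.e) hUs, ul_const_mul _ hUy] at key
  linarith

theorem sc_inn [Finite ι] {b : ℝ} (hb : 0 ≤ b) {x : ∀ k, FD (S.F k) (Mon M D)}
    (hx : (gaq s.Q D).Adf (s.cnd (Z.c + Z.e * b)) x) :
    ul (fun k => (x k).sc / (S.F k).n) + ul (Z.sha D) ≤ Z.e * ul (fun k => (Z.inn x k).sc / (Z.sp.F k).n) := by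
  have hy := Z.inn_ad hb hx
  have hUy := (gaq Z.sys.Q D).sc_UBf hy
  have hUx := (gaq s.Q D).sc_UBf hx
  have hUs := Z.sha_UB (D := D)
  have e1 : (fun k => ∑ ω, ((Z.l k).am (x k).l).sp.μ ω * ((Real.logb 2 ((x k).g (((Z.l k).am (x k).l).p2.π ω)).det +
      Z.sh D k ((Z.l k).p.π (((Z.l k).am (x k).l).p1.π ω))) / (S.F k).n)) =
      fun k => (x k).sc / (S.F k).n + Z.sha D k := by
    funext k
    have hn := (S.F k).pos
    have h1 : ∑ ω, ((Z.l k).am (x k).l).sp.μ ω * Z.sh D k ((Z.l k).p.π (((Z.l k).am (x k).l).p1.π ω)) =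
        ∑ ω, (S.F k).μ ω * Z.sh D k ω := by
      have h2 := sum_push ((Z.l k).am (x k).l).p1 (fun ω => Z.sh D k ((Z.l k).p.π ω))
      have h3 := sum_push (Z.l k).p (fun ω => Z.sh D k ω)
      exact h2.trans h3
    have h5 : ∑ ω, ((Z.l k).am (x k).l).sp.μ ω * Real.logb 2 ((x k).g (((Z.l k).am (x k).l).p2.π ω)).det =
        (x k).sc := sum_push ((Z.l k).am (x k).l).p2 (fun ω => Real.logb 2 ((x k).g ω).det)
    have h4 : ∀ ω, ((Z.l k).am (x k).l).sp.μ ω * ((Real.logb 2 ((x k).g (((Z.l k).am (x k).l).p2.π ω)).det +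
      Z.sh D k ((Z.l k).p.π (((Z.l k).am (x k).l).p1.π ω))) / (S.F k).n) =
      (((Z.l k).am (x k).l).sp.μ ω * Real.logb 2 ((x k).g (((Z.l k).am (x k).l).p2.π ω)).det +
        ((Z.l k).am (x k).l).sp.μ ω * Z.sh D k ((Z.l k).p.π (((Z.l k).am (x k).l).p1.π ω))) /
        (S.F k).n := fun ω => by ring
    rw [Finset.sum_congr rfl fun ω _ => h4 ω, ← Finset.sum_div, Finset.sum_add_distrib, h1, h5]
    unfold sha
    ring
  have e2 : (fun k => ∑ ω, ((Z.l k).am (x k).l).sp.μ ω * (Real.logb 2 ((Z.inn x k).g ω).det / (S.F k).n)) =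
      fun k => Z.e * ((Z.inn x k).sc / (Z.sp.F k).n) := by
    funext k
    have hn := (S.F k).pos
    have he := Z.e_pos
    have h4 : ∀ ω, ((Z.l k).am (x k).l).sp.μ ω * (Real.logb 2 ((Z.inn x k).g ω).det / (S.F k).n) =
      (((Z.l k).am (x k).l).sp.μ ω * Real.logb 2 ((Z.inn x k).g ω).det) / (S.F k).n := fun ω => by ring
    rw [Finset.sum_congr rfl fun ω _ => h4 ω, ← Finset.sum_div, Z.sp_n]
    have h5 : (Z.inn x k).sc = ∑ ω, ((Z.l k).am (x k).l).sp.μ ω * Real.logb 2 ((Z.inn x k).g ω).det := rfl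
    rw [h5]
    field_simp
  have key := ul_avg_le (fun k => ((Z.l k).am (x k).l).sp)
    (fun k ω => Real.logb 2 ((Z.inn x k).g ω).det / (S.F k).n)
    (fun k ω => (Real.logb 2 ((x k).g (((Z.l k).am (x k).l).p2.π ω)).det +
      Z.sh D k ((Z.l k).p.π (((Z.l k).am (x k).l).p1.π ω))) / (S.F k).n)
    (fun k ω => Cpd ((gaq Z.sys.Q D).cp k) (Z.ifm x k ω)) (fun _ => 0) tendsto_const_nhds
    (Fintype.card (Mon M D) * ((gaq s.Q D).C + 1) + Fintype.card (Mon M D) * (((gaq Z.sys.Q D).C + 1) * Z.e))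
    (Z.inn_typ hx) (by
      filter_upwards [hx 1 one_pos] with k h2 ω hω hE
      have hn := (S.F k).pos
      have a0 := Z.inn_g k ω hE
      have hc := (h2.2.1 _ (((Z.l k).am (x k).l).p2.supp ω hω)).1
      have hpd : PdM ((x k).g (((Z.l k).am (x k).l).p2.π ω)) := hc.pdM
      have h7 := det_afm_le (D := D) (Z.o0 k ((Z.l k).p.π (((Z.l k).am (x k).l).p1.π ω)))
        (Z.dM_ne D k ((Z.l k).p.π (((Z.l k).am (x k).l).p1.π ω))) hpd hE.1 (afm_le_one_afm _ _ _)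
      have h8 : 0 < Z.dM D k ((Z.l k).p.π (((Z.l k).am (x k).l).p1.π ω)) ^ 2 := by
        have := Z.dM_ne D k ((Z.l k).p.π (((Z.l k).am (x k).l).p1.π ω))
        positivity
      have h9 : 0 < ((x k).g (((Z.l k).am (x k).l).p2.π ω)).det := lt_of_lt_of_le one_pos hc.one_le
      have h10 : Real.logb 2 (Z.dM D k ((Z.l k).p.π (((Z.l k).am (x k).l).p1.π ω)) ^ 2 *
          ((x k).g (((Z.l k).am (x k).l).p2.π ω)).det) ≤ Real.logb 2 (Z.ifm x k ω).det :=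
        Real.logb_le_logb_of_le (by norm_num) (by positivity) h7
      rw [Real.logb_mul h8.ne' h9.ne'] at h10
      have h11 : Real.logb 2 (Z.dM D k ((Z.l k).p.π (((Z.l k).am (x k).l).p1.π ω)) ^ 2) =
        Z.sh D k ((Z.l k).p.π (((Z.l k).am (x k).l).p1.π ω)) := rfl
      rw [h11] at h10
      rw [a0, add_zero]
      apply div_le_div_of_nonneg_right _ hn.le
      linarith) (by
      filter_upwards [hx 1 one_pos, Z.sh_ub (D := D)] with k h2 h3 ω hω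
      have hn := (S.F k).pos
      have hc := (h2.2.1 _ (((Z.l k).am (x k).l).p2.supp ω hω)).1
      have h4 := logdet_le ((gaq s.Q D).one_le_cp k) hc
      rw [(gaq s.Q D).logb_cp] at h4
      have h5 := h3 _ (((Z.l k).am (x k).l).p1.supp ω hω)
      rw [Z.sp_n] at h5
      rw [div_le_iff₀ hn]
      linarith) (by
      filter_upwards [hy 1 one_pos] with k h2 ω hω
      exact div_nonneg (logdet_nonneg (h2.2.1 ω hω).1) (S.F k).pos.le)
    (by rw [e1]; exact hUx.add hUs) (by rw [e2]; exact hUy.const_mul Z.e)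
  rw [e1, e2, ul_add hUx hUs, ul_const_mul _ hUy] at key
  exact key

/-- OPTIMAL FORMS OF THE ZOOM ARE OPTIMAL FORMS OF THE SYSTEM -/
theorem opt_out [Finite ι] {b : ℝ} (hb : 0 ≤ b) {y : ∀ k, FD (Z.sp.F k) (Mon M D)}
    (hy : (gaq Z.sys.Q D).Optf (Z.sys.cnd b) y) : (gaq s.Q D).Optf (s.cnd (Z.c + Z.e * b)) (Z.out y) := by
  refine ⟨Z.out_ad hb hy.1, fun x hx => ?_⟩
  have h1 := Z.sc_inn hb hx
  have h2 := mul_le_mul_of_nonneg_left (hy.2 _ (Z.inn_ad hb hx)) Z.e_pos.le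
  have h3 := Z.sc_out hb hy.1
  linarith

/-- OPTIMAL FORMS OF THE SYSTEM ARE OPTIMAL FORMS OF THE ZOOM -/
theorem opt_inn [Finite ι] {b : ℝ} (hb : 0 ≤ b) {x : ∀ k, FD (S.F k) (Mon M D)}
    (hx : (gaq s.Q D).Optf (s.cnd (Z.c + Z.e * b)) x) : (gaq Z.sys.Q D).Optf (Z.sys.cnd b) (Z.inn x) := by
  refine ⟨Z.inn_ad hb hx.1, fun y hy => ?_⟩
  have h1 := Z.sc_inn hb hx.1
  have h2 := hx.2 _ (Z.out_ad hb hy)
  have h3 := Z.sc_out hb hy
  have h4 : Z.e * ul (fun k => (y k).sc / (Z.sp.F k).n) ≤ Z.e * ul (fun k => (Z.inn x k).sc / (Z.sp.F k).n) := by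
    linarith
  exact le_of_mul_le_mul_left h4 Z.e_pos

/-- CANONICAL TO CANONICAL, from the zoom to the system -/
theorem can_out [Finite ι] {b : ℝ} (hb : 0 ≤ b) {y : ∀ k, FD (Z.sp.F k) (Mon M D)} (hy : Z.sys.IsCan D b y) :
    s.IsCan D (Z.c + Z.e * b) (Z.out y) := ⟨Z.opt_out hb hy.1, Z.IsKap_cl hb hy.2⟩

/-- CANONICAL TO CANONICAL, from the system to the zoom -/
theorem can_inn [Finite ι] {b : ℝ} (hb : 0 ≤ b) {x : ∀ k, FD (S.F k) (Mon M D)}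
    (hx : s.IsCan D (Z.c + Z.e * b) x) : Z.sys.IsCan D b (Z.inn x) := ⟨Z.opt_inn hb hx.1, Z.IsKap_ov hb hx.2⟩

/-- CANONICAL VOLUMES -/
theorem vol_can [Finite ι] (hD : 1 ≤ D) {b : ℝ} (hb : 0 ≤ b) {y : ∀ k, FD (Z.sp.F k) (Mon M D)}
    (hy : Z.sys.IsCan D b y) {x : ∀ k, FD (S.F k) (Mon M D)} (hx : s.IsCan D (Z.c + Z.e * b) x) :
    vol s.Q D x = Z.e * vol Z.sys.Q D y := Z.vol_opt hD hb hy.1 hx.1

end ZM

end

end Pool.Agent.Helper84.MT
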