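import Pool.Agent.Helper26.MT.Zn

/-! MULTI-TYPE LAYER: the numbers of a truncation. -/

set_option autoImplicit false

namespace Pool.Agent.Helper84.MT

open Finset Filter Topology Matrix Pool.Agent.Helper69.RK Pool.Agent.Helper31.EC Pool.Agent.Helper31.EC.Sp
open Pool.Agent.Helper40.EL Pool.Agent.Helper89.LX Pool.Agent.Helper3.LF Pool.Agent.Helper95.LF
open Pool.Agent.Helper36.AM (volO HQ HQ_eq STO MCl DGR cel2)
open Pool.Agent.Helper52.SL (untF tnF untL tnL nul_trn cellv_chg untF_leak tnF_leak)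

noncomputable section

variable {S : Sp} {M : ℕ} {E : ℕ → ℕ} {ι : Type}

/-- the finite conditions of the truncation -/
theorem ker2_chg (Q : S.VV M) {r : ℝ} {h0 : 0 < r} (z : Fin M) (a b : ℝ) (k : ℕ) :
    (Setoid.ker ((Q.chg S.tr r h0).cellv b k) ⊓
      Setoid.ker (fun ω (j : {j : Fin M // j ≠ z}) => (Q.chg S.tr r h0).cellv a k ω j.1) : Setoid (S.F k).Ω) =
      Setoid.ker (Q.cellv (r * b) k) ⊓ Setoid.ker (fun ω (j : {j : Fin M // j ≠ z}) => Q.cellv (r * a) k ω j.1) := by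
  have e1 : (Q.chg S.tr r h0).cellv b k = Q.cellv (r * b) k := cellv_chg Q r h0 b k
  have e2 : (Q.chg S.tr r h0).cellv a k = Q.cellv (r * a) k := cellv_chg Q r h0 a k
  exact congrArg₂ (fun (f g : (S.F k).Ω → Fin M → ℤ) => (Setoid.ker f ⊓
    Setoid.ker (fun ω (j : {j : Fin M // j ≠ z}) => g ω j.1) : Setoid (S.F k).Ω)) e1 e2

theorem untF_h {F : FSp} (r : ℝ) (h0 : 0 < r) (l : FLab (F.chg ⊤ r h0)) (A : Setoid F.Ω) :
    h ((untF r h0 l).p.map (fc A)) (untF r h0 l).v = h (l.p.map (fc (F := F.chg ⊤ r h0) A)) l.v := rfl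

/-- finite entropies of the truncation -/
theorem trn_cel2 (Q : S.VV M) {r : ℝ} {h0 : 0 < r} (z : Fin M) (a b : ℝ) (l : Lab (S.chg S.tr r h0)) (k : ℕ) :
    h ((l k).p.map (cel2 (Q.chg S.tr r h0) z a b k)) (l k).v =
      h (((untL l) k).p.map (cel2 Q z (r * a) (r * b) k)) ((untL l) k).v :=
  (congrArg (fun A : Setoid (S.F k).Ω => h ((l k).p.map (fc (F := (S.F k).chg ⊤ r h0) A)) (l k).v)
    (ker2_chg Q z a b k)).trans (untF_h r h0 (l k) _).symm

/-- rates over a label are bounded -/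
theorem cel2_UB (Q : S.VV M) (z : Fin M) (a b : ℝ) (l : Lab S) :
    UB (fun k => h ((l k).p.map (cel2 Q z a b k)) (l k).v / (S.F k).n) := by
  rw [cel2_rpI]
  refine UB.sandwich (UB_const 0) (rpI_Bd (cel2I Q z a b)) ?_ ?_
  · exact Eventually.of_forall fun k => div_nonneg (h_nonneg _ _) (S.F k).pos.le
  · refine Eventually.of_forall fun k => div_le_div_of_nonneg_right ?_ (S.F k).pos.le
    rw [← (l k).p.H_map]
    exact h_le_H _ _

theorem H_cel2L (Q : S.VV M) (z : Fin M) (a b : ℝ) (l : Lab S) :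
    H (up1 l (cel2L Q z a b)) = ul (fun k => h ((l k).p.map (cel2 Q z a b k)) (l k).v / (S.F k).n) := by
  rw [← cl_cel2I, H_up1_cl, cel2_rpI]

/-- THE NUMBERS over a label of the truncation -/
theorem H_trn (Q : S.VV M) {r : ℝ} {h0 : 0 < r} (z : Fin M) (a b : ℝ) (l : Lab (S.chg S.tr r h0)) :
    H (up1 (untL l) (cel2L Q z (r * a) (r * b))) = r * H (up1 l (cel2L (Q.chg S.tr r h0) z a b)) := by
  rw [H_cel2L Q, H_cel2L (Q.chg S.tr r h0), ← ul_const_mul r (cel2_UB (Q.chg S.tr r h0) z a b l)]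
  congr 1
  funext k
  rw [trn_cel2]
  show _ / (S.F k).n = r * (_ / (r * (S.F k).n))
  have := (S.F k).pos.ne'
  field_simp

/-- a maximal label of the truncation, as a label of the window of the system -/
theorem MSys.DMc_kap_trn [Countable ι] (s : MSys S M E ι) {r : ℝ} (h0 : 0 < r) (h1 : r ≤ 1) (c : ℝ) :
    s.DMc (r * c) (untL ((s.trn r h0 h1).kap c)) := by
  have h2 := ((s.trn r h0 h1).kap_isKap c).1
  exact MSys.DMc.of_trn (s := s) (h0 := h0) (h1 := h1) le_rfl h2

theorem MSys.num_trn_eq [Countable ι] (s : MSys S M E ι) {r : ℝ} (h0 : 0 < r) (h1 : r ≤ 1) (z : Fin M) (c a b : ℝ) :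
    r * (s.trn r h0 h1).num z c a b = H (up1 (untL ((s.trn r h0 h1).kap c)) (cel2L s.Q z (r * a) (r * b))) :=
  (H_trn s.Q z a b ((s.trn r h0 h1).kap c)).symm

/-- the numbers of the truncation are at least the numbers of the system -/
theorem MSys.num_trn_ge [Countable ι] (s : MSys S M E ι) {r : ℝ} (h0 : 0 < r) (h1 : r ≤ 1) (z : Fin M) (c a b : ℝ) :
    s.num z (r * c) (r * a) (r * b) ≤ r * (s.trn r h0 h1).num z c a b := by
  rw [s.num_trn_eq h0 h1]
  exact MSys.IsKap.H_le (s.kap_isKap (r * c)) (s.DMc_kap_trn h0 h1 c) _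

/-- if a maximal label of the truncation is maximal for the window `r c`, the numbers are the same -/
theorem MSys.num_trn [Countable ι] (s : MSys S M E ι) {r : ℝ} (h0 : 0 < r) (h1 : r ≤ 1) (z : Fin M) {c : ℝ}
    {l : Lab (S.chg S.tr r h0)} (hl : (s.trn r h0 h1).IsKap c l) (hm : s.IsKap (r * c) (untL l)) (a b : ℝ) :
    r * (s.trn r h0 h1).num z c a b = s.num z (r * c) (r * a) (r * b) := by
  rw [← s.num_eq z (r * a) (r * b) hm, ← (s.trn r h0 h1).num_eq z a b hl]
  exact (H_trn s.Q z a b l).symm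

/-- the information of a label of the truncation is at most the information of the label of the window -/
theorem MSys.info_trn_le (s : MSys S M E ι) {r : ℝ} {h0 : 0 < r} {h1 : r ≤ 1} {c : ℝ}
    {l : Lab (S.chg S.tr r h0)} (hl : (s.trn r h0 h1).DMc c l) {l' : Lab S} (hl' : s.IsKap (r * c) l') :
    (untL l).info ≤ l'.info := hl'.2 _ (MSys.DMc.of_trn (s := s) (h0 := h0) (h1 := h1) le_rfl hl)

/-- equality of the informations: the label of the truncation is maximal for the window -/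
theorem MSys.kap_of_info (s : MSys S M E ι) {r : ℝ} {h0 : 0 < r} {h1 : r ≤ 1} {c : ℝ}
    {l : Lab (S.chg S.tr r h0)} (hl : (s.trn r h0 h1).DMc c l) {l' : Lab S} (hl' : s.IsKap (r * c) l')
    (h : l'.info ≤ (untL l).info) : s.IsKap (r * c) (untL l) :=
  ⟨MSys.DMc.of_trn (s := s) (h0 := h0) (h1 := h1) le_rfl hl, fun l'' h'' => (hl'.2 l'' h'').trans h⟩

end

end Pool.Agent.Helper84.MT
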