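import Pool.Agent.Helper49.MT.Pb

/-! Labels over a label: a Markov label `y` of a family and a Markov label `l` of the same family give a Markov label over
`l` with the information of the join. Maximality over a label is maximality of the composed label. -/

set_option autoImplicit false

namespace Pool.Agent.Helper40.EL

open Finset Filter Topology Pool.Agent.Helper69.RK Pool.Agent.Helper31.EC

noncomputable section

namespace FLab

variable {F : FSp} (l : FLab F) (c : ℝ) (hc : 0 < c) (y : FLab F)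

/-- the label `y` over the label `l` (conditionally independent given the space) -/
def ovl : FLab (l.ovr c hc) where
  T := (l.am y).sp.chg (Setoid.comap (l.am y).p1.π l.V) c hc
  p :=
    { π := (l.am y).p1.π
      law := (l.am y).p1.law
      hZ := fun _ _ _ _ => Iff.rfl }
  hn := rfl
  V := Setoid.comap (l.am y).p2.π y.V

/-- the base of the label over the label -/
def ovf : FRb (l.ovl c hc y).T (l.am y).sp := frb (l.am y).sp (Setoid.comap (l.am y).p1.π l.V) c hc

theorem ovl_v : (l.ovl c hc y).v = (l.ovf c hc y).map ((l.am y).p2.map y.v) := rfl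

theorem ovl_top : (l.ovl c hc y).p.top = (l.ovf c hc y).map (l.am y).p1.top := rfl

theorem ovl_up (x : FL F) : (l.ovl c hc y).p.map (l.up c hc x) =
    (l.ovf c hc y).map ((l.am y).p1.map (l.p.map x)) := by
  induction x using fc_ind
  rfl

theorem ovl_W : (fc (l.ovf c hc y).W : FL (l.am y).sp) = (l.am y).p1.map l.v := rfl

/-- the top of the first space is a function -/
theorem am_p1_top : (l.am y).p1.top = (l.am y).p1.map (fc (⊥ : Setoid l.T.Ω)) := by
  rw [(l.am y).p1.map_fc]
  rfl

/-- NO NEW LEAK -/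
theorem ovl_leak_le (x : FL F) : (l.ovl c hc y).leak (l.up c hc x) ≤ y.leak x := by
  have h0 : (l.ovl c hc y).leak (l.up c hc x) = I ((l.am y).p2.map y.v) (l.am y).p1.top
      ((l.am y).p1.map (l.p.map x) ⊔ (l.am y).p1.map l.v) := by
    unfold leak
    rw [ovl_v, ovl_top, ovl_up, (l.ovf c hc y).I_map, ovl_W]
  have hx : (l.am y).p1.map (l.p.map x) ≤ (l.am y).p1.top := (l.am y).p1.map_le_top _
  have hv : (l.am y).p1.map l.v ≤ (l.am y).p1.top := (l.am y).p1.map_le_top _
  have h1 := leak_cond (v := (l.am y).p2.map y.v) (o := (l.am y).p1.top)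
    (a := (l.am y).p1.map (l.p.map x)) (b := (l.am y).p1.map (l.p.map x) ⊔ (l.am y).p1.map l.v)
    le_sup_left (sup_le hx hv)
  have hT : (l.am y).p1.map l.p.top ≤ (l.am y).p1.top := (l.am y).p1.map_le_top _
  have h2 := I_chain_right ((l.am y).p2.map y.v) ((l.am y).p1.map l.p.top) (l.am y).p1.top
    ((l.am y).p1.map (l.p.map x))
  rw [sup_eq_right.mpr hT] at h2
  have h3 : (l.am y).p1.map l.p.top ⊔ (l.am y).p1.map (l.p.map x) = (l.am y).p1.map l.p.top :=
    sup_eq_left.mpr ((l.am y).p1.map_mono (l.p.map_le_top x))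
  have h4 : I ((l.am y).p2.map y.v) (l.am y).p1.top ((l.am y).p1.map l.p.top) = 0 := by
    rw [am_p1_top, I_comm]
    exact am_indep l y _ _
  have h5 : I ((l.am y).p2.map y.v) ((l.am y).p1.map l.p.top) ((l.am y).p1.map (l.p.map x)) = y.leak x := by
    rw [am_top, am_map, (l.am y).p2.I_map]
    rfl
  rw [h3, h4, h5, add_zero] at h2
  rw [h0, ← h2]
  exact h1

/-- the composed label is the join -/
def ovj : FPj (l.comp c hc (l.ovl c hc y)).T (l.join y).T where
  π := fun ω => ω
  law := push_id (l.am y).sp.μ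
  hZ := by
    intro ω ω' h1 h2
    have e1 : l.T.μ ω.1 ≠ 0 := (l.am y).p1.supp ω h1
    have e2 : l.T.μ ω'.1 ≠ 0 := (l.am y).p1.supp ω' h2
    exact (l.p.hZ _ _ e1 e2).symm

theorem ovl_info : (l.comp c hc (l.ovl c hc y)).info = (l.join y).info := by
  have h1 := (l.ovj c hc y).I_map (l.join y).v (l.join y).p.top ⊥
  rw [(l.ovj c hc y).map_bot] at h1
  exact h1

end FLab

namespace Lab

variable {S : Sp} {ι : Type}

/-- the label `y` over the label `l` -/
def ovl (l : Lab S) (c : ℝ) (hc : 0 < c) (y : Lab S) : Lab (l.ovr c hc) := fun k => (l k).ovl c hc (y k)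

variable {l y : Lab S} {A : ι → Part S} {c : ℝ} {hc : 0 < c}

theorem DMf.ovl (hy : y.DMf A) (l : Lab S) (c : ℝ) (hc : 0 < c) :
    (l.ovl c hc y).DMf (fun i => l.up c hc (A i)) := by
  intro i
  rw [nul_over]
  apply (hy i).of_le (Eventually.of_forall fun k => FLab.leak_nonneg _ _)
  exact Eventually.of_forall fun k => (l k).ovl_leak_le c hc (y k) (A i k)

theorem ovl_info (l : Lab S) (c : ℝ) (hc : 0 < c) (y : Lab S) :
    (l.comp c hc (l.ovl c hc y)).info = (l.join y).info := by
  unfold Lab.info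
  congr 1
  funext k
  exact congrArg (· / (S.F k).n) ((l k).ovl_info c hc (y k))

theorem DMf.le_ovl_info (hl : l.DMf A) (hy : y.DMf A) {i : ι} (hA : (A i).Bd) :
    y.info ≤ (l.comp c hc (l.ovl c hc y)).info := by
  rw [ovl_info]
  refine ul_mono (hy.ub hA) ((hl.join hy).ub hA) (Eventually.of_forall fun k => ?_)
  exact div_le_div_of_nonneg_right (FLab.join_info_ge_right (l k) (y k)) (S.F k).pos.le

/-- MAXIMAL LABELS OVER A MARKOV LABEL are maximal -/
theorem IsMaxf.comp_max [Countable ι] {l2 : Lab (l.ovr c hc)} (hl : l.DMf A)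
    (h2 : l2.IsMaxf (fun i => l.up c hc (A i))) {i : ι} (hA : (A i).Bd) : (l.comp c hc l2).IsMaxf A :=
  IsMaxf.comp hl h2 hA fun y hy => ⟨l.ovl c hc y, hy.ovl l c hc, hl.le_ovl_info hy hA⟩

end Lab

end

end Pool.Agent.Helper40.EL
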