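import Pool.Agent.Helper36.AM.DK
import Pool.Agent.Helper26.MT.Zc

/-! MULTI-TYPE LAYER: gradient matrices of the forms of a zoom; the classes `(D_k)` are closed under zoom. -/

set_option autoImplicit false

namespace Pool.Agent.Helper84.MT

open Finset Filter Topology Matrix Pool.Agent.Helper69.RK Pool.Agent.Helper31.EC Pool.Agent.Helper31.EC.Sp
open Pool.Agent.Helper40.EL Pool.Agent.Helper89.LX Pool.Agent.Helper3.LF Pool.Agent.Helper26.MZ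
open Pool.Agent.Helper95.LF
open Pool.Agent.Helper3.PR (cutm cutm_cpd cutFD cut_typ exp_le)
open Pool.Agent.Helper3.ZM (aff MM afm afm_symm afm_nonneg phi_afm)
open Pool.Agent.Helper36.AM (UDp UDf DK MCl)

noncomputable section

variable {S : Sp} {M D : ℕ} {E : ℕ → ℕ} {ι : Type}

namespace ZM

variable {s : MSys S M E ι} (Z : ZM s)

/-- the gradient matrix of the form of the system is at least the gradient matrix of the form of the zoom -/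
theorem Jq_zfm (y : ∀ k, FD (Z.sp.F k) (Mon M D)) (k : ℕ) (ω : (y k).l.T.Ω) (v : Fin M → ℝ) :
    v ⬝ᵥ (Jq (Z.sp.dl 1 k) ((y k).g ω) (Z.sys.Q.v k ((y k).l.p.π ω)) *ᵥ v) ≤ S.dl Z.c k ^ 2 *
      (v ⬝ᵥ (Jq (S.dl 1 k) (Z.zfm y k ω) (s.Q.v k ((Z.l k).p.π ((y k).l.p.π ω))) *ᵥ v)) := by
  have h1 := Jq_mono (S.dl 1 k) (B := Z.zfm y k ω) (afm_le_one_afm (Z.oi k ((Z.l k).p.π ((y k).l.p.π ω)))
    (S.dl Z.c k)⁻¹ ((y k).g ω)) (s.Q.v k ((Z.l k).p.π ((y k).l.p.π ω))) v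
  have h5 : aff (Z.oi k ((Z.l k).p.π ((y k).l.p.π ω))) (S.dl Z.c k)⁻¹ (s.Q.v k ((Z.l k).p.π ((y k).l.p.π ω))) =
      (Z.fr s.Q).v k ((y k).l.p.π ω) := Z.aff_fr' k _
  rw [Jq_afm, Z.dl_inv, h5, Matrix.smul_mulVec, dotProduct_smul, smul_eq_mul] at h1
  have h2 := mul_le_mul_of_nonneg_left h1 (sq_nonneg (S.dl Z.c k))
  have hd := (S.dl_pos Z.c k).ne'
  rw [← mul_assoc, ← mul_pow, mul_inv_cancel₀ hd, one_pow, one_mul] at h2
  exact h2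

theorem Jq_ifm (x : ∀ k, FD (S.F k) (Mon M D)) (k : ℕ) (ω : ((Z.l k).am (x k).l).sp.Ω)
    (h : ((Z.l k).am (x k).l).sp.μ ω ≠ 0) (v : Fin M → ℝ) :
    S.dl Z.c k ^ 2 * (v ⬝ᵥ (Jq (S.dl 1 k) ((x k).g (((Z.l k).am (x k).l).p2.π ω))
      (s.Q.v k ((x k).l.p.π (((Z.l k).am (x k).l).p2.π ω))) *ᵥ v)) ≤
      v ⬝ᵥ (Jq (Z.sp.dl 1 k) (Z.ifm x k ω) (Z.sys.Q.v k (((Z.l k).am (x k).l).p1.π ω)) *ᵥ v) := by
  have h1 := Jq_mono (Z.sp.dl 1 k) (B := Z.ifm x k ω) (afm_le_one_afm (Z.o0 k ((Z.l k).p.π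
    (((Z.l k).am (x k).l).p1.π ω))) (S.dl Z.c k) ((x k).g (((Z.l k).am (x k).l).p2.π ω)))
    (Z.sys.Q.v k (((Z.l k).am (x k).l).p1.π ω)) v
  have h5 : aff (Z.o0 k ((Z.l k).p.π (((Z.l k).am (x k).l).p1.π ω))) (S.dl Z.c k)
      (Z.sys.Q.v k (((Z.l k).am (x k).l).p1.π ω)) = s.Q.v k ((x k).l.p.π (((Z.l k).am (x k).l).p2.π ω)) := by
    rw [← Z.ov_sup x k ω h]
    exact (Z.aff_fr k _).symm
  rw [Jq_afm, Z.dl_eq', h5, Matrix.smul_mulVec, dotProduct_smul, smul_eq_mul] at h1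
  exact h1

/-- THE FORM OF THE SYSTEM DOMINATES the form of the zoom, typically -/
theorem out_dom {κ : Type} {A : κ → Part Z.sp} {y : ∀ k, FD (Z.sp.F k) (Mon M D)} (hy : (gaq Z.sys.Q D).Adf A y) :
    Tendsto (fun k => (y k).l.T.pb (fun ω => ¬ ∀ v : Fin M → ℝ,
      v ⬝ᵥ (Jq (Z.sp.dl 1 k) ((y k).g ω) (Z.sys.Q.v k ((y k).l.p.π ω)) *ᵥ v) ≤ S.dl Z.c k ^ 2 *
      (v ⬝ᵥ (Jq (S.dl 1 k) ((Z.out y k).g ω) (s.Q.v k ((Z.l k).p.π ((y k).l.p.π ω))) *ᵥ v)))) UF (𝓝 0) := by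
  have h0 := Z.out_typ hy
  refine squeeze_zero (fun k => (y k).l.T.pb_nonneg _) (fun k => ?_) h0
  refine FSp.pb_mono _ ?_
  intro ω _ h h'
  apply h
  intro v
  rw [Z.out_g k ω h']
  exact Z.Jq_zfm y k ω v

/-- THE FORM OF THE ZOOM DOMINATES the form of the system, typically -/
theorem inn_dom {κ : Type} {A : κ → Part S} {x : ∀ k, FD (S.F k) (Mon M D)} (hx : (gaq s.Q D).Adf A x) :
    Tendsto (fun k => ((Z.l k).am (x k).l).sp.pb (fun ω => ¬ ∀ v : Fin M → ℝ,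
      S.dl Z.c k ^ 2 * (v ⬝ᵥ (Jq (S.dl 1 k) ((x k).g (((Z.l k).am (x k).l).p2.π ω))
      (s.Q.v k ((x k).l.p.π (((Z.l k).am (x k).l).p2.π ω))) *ᵥ v)) ≤
      v ⬝ᵥ (Jq (Z.sp.dl 1 k) ((Z.inn x k).g ω) (Z.sys.Q.v k (((Z.l k).am (x k).l).p1.π ω)) *ᵥ v))) UF (𝓝 0) := by
  have h0 := Z.inn_typ hx
  refine squeeze_zero (fun k => ((Z.l k).am (x k).l).sp.pb_nonneg _) (fun k => ?_) h0
  refine FSp.pb_mono _ ?_
  intro ω hω h h'
  apply h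
  intro v
  rw [Z.inn_g k ω h']
  exact Z.Jq_ifm x k ω hω v

theorem two_dl (k : ℕ) : S.dl Z.c k ^ 2 = 2 ^ (-(2 * Z.c * (S.F k).n)) := by
  have h1 : S.dl Z.c k = 2 ^ (-(Z.c * (S.F k).n)) := rfl
  rw [h1, ← Real.rpow_natCast, ← Real.rpow_mul (by norm_num)]
  congr 1
  push_cast
  ring

/-- exponents of the forms of the zoom -/
theorem UDf_out {κ : Type} {A : κ → Part Z.sp} {y : ∀ k, FD (Z.sp.F k) (Mon M D)} (hy : (gaq Z.sys.Q D).Adf A y)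
    {p : ℕ} {b : ℝ} (h : UDf s.Q p (Z.c + Z.e * b) (Z.out y)) : UDf Z.sys.Q p b y := by
  intro η hη
  have he := Z.e_pos
  have h1 := Z.out_dom hy
  have h2 : Tendsto (fun k => (y k).l.T.pb (fun ω => ¬ UDp p (Jq (S.dl 1 k) ((Z.out y k).g ω)
    (s.Q.v k ((Z.l k).p.π ((y k).l.p.π ω)))) (2 ^ (2 * (Z.c + Z.e * b + Z.e * η) * (S.F k).n)))) UF (𝓝 0) :=
    h (Z.e * η) (by positivity)
  have h3 := h1.add h2
  rw [add_zero] at h3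
  show Tendsto (fun k => (y k).l.T.pb (fun ω => ¬ UDp p (Jq (Z.sp.dl 1 k) ((y k).g ω)
    (Z.sys.Q.v k ((y k).l.p.π ω))) (2 ^ (2 * (b + η) * (Z.sp.F k).n)))) UF (𝓝 0)
  refine squeeze_zero (fun k => (y k).l.T.pb_nonneg _) (fun k => ?_) h3
  refine le_trans (FSp.pb_mono _ ?_) (pb_or _ _ _)
  intro ω _ h6
  by_contra hc
  rw [not_or, not_not, not_not] at hc
  apply h6
  refine hc.2.mono (sq_nonneg (S.dl Z.c k)) hc.1 (le_of_eq ?_)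
  rw [Z.two_dl, ← Real.rpow_add (by norm_num), Z.sp_n]
  congr 1
  ring

theorem UDf_inn {κ : Type} {A : κ → Part S} {x : ∀ k, FD (S.F k) (Mon M D)} (hx : (gaq s.Q D).Adf A x)
    {p : ℕ} {b : ℝ} (h : UDf Z.sys.Q p b (Z.inn x)) : UDf s.Q p (Z.c + Z.e * b) x := by
  intro η hη
  have he := Z.e_pos
  have h1 := Z.inn_dom hx
  have h2 : Tendsto (fun k => ((Z.l k).am (x k).l).sp.pb (fun ω => ¬ UDp p (Jq (Z.sp.dl 1 k) ((Z.inn x k).g ω)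
    (Z.sys.Q.v k (((Z.l k).am (x k).l).p1.π ω))) (2 ^ (2 * (b + η / Z.e) * (Z.sp.F k).n)))) UF (𝓝 0) :=
    h (η / Z.e) (by positivity)
  have h3 := h1.add h2
  rw [add_zero] at h3
  show Tendsto (fun k => (x k).l.T.pb (fun ω => ¬ UDp p (Jq (S.dl 1 k) ((x k).g ω)
    (s.Q.v k ((x k).l.p.π ω))) (2 ^ (2 * (Z.c + Z.e * b + η) * (S.F k).n)))) UF (𝓝 0)
  refine squeeze_zero (fun k => (x k).l.T.pb_nonneg _) (fun k => ?_) h3
  have h5 := pb_push ((Z.l k).am (x k).l).p2 (fun ω => ¬ UDp p (Jq (S.dl 1 k) ((x k).g ω)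
    (s.Q.v k ((x k).l.p.π ω))) (2 ^ (2 * (Z.c + Z.e * b + η) * (S.F k).n)))
  rw [← h5]
  refine le_trans (FSp.pb_mono _ ?_) (pb_or _ _ _)
  intro ω _ h6
  by_contra hc
  rw [not_or, not_not, not_not] at hc
  apply h6
  have hd := S.dl_pos Z.c k
  refine hc.2.mono (c := (S.dl Z.c k ^ 2)⁻¹) (by positivity) (fun v => ?_) (le_of_eq ?_)
  · rw [le_inv_mul_iff₀ (by positivity)]
    exact hc.1 v
  · rw [Z.two_dl, ← Real.rpow_neg (by norm_num), ← Real.rpow_add (by norm_num), Z.sp_n]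
    congr 1
    field_simp
    ring

/-- exponents of the canonical forms of the zoom and of the system -/
theorem UDf_can [Finite ι] {b : ℝ} (hb : 0 ≤ b) {y : ∀ k, FD (Z.sp.F k) (Mon M D)} (hy : Z.sys.IsCan D b y)
    {x : ∀ k, FD (S.F k) (Mon M D)} (hx : s.IsCan D (Z.c + Z.e * b) x) (p : ℕ) :
    UDf Z.sys.Q p b y ↔ UDf s.Q p (Z.c + Z.e * b) x :=
  ⟨fun h => Z.UDf_inn hx.1.1 (UDf.low hy.1 (Z.inn_ad hb hx.1.1) h),
    fun h => Z.UDf_out hy.1.1 (UDf.low hx.1 (Z.out_ad hb hy.1.1) h)⟩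

end ZM

/-- THE CLASSES `(D_k)` ARE CLOSED UNDER ZOOM -/
theorem DK_zoom {p g r : ℕ} {s : MSys S M (lin g) (Fin r)} (hs : DK M p S g r s) (Z : ZM s) :
    DK M p Z.sp g r Z.sys := by
  intro D b hb0 hb1 y hy
  have h1 := mul_nonneg Z.e_pos.le hb0
  have h2 : Z.c + Z.e * b ≤ 1 := by
    have h3 := mul_le_mul_of_nonneg_left hb1 Z.e_pos.le
    have h4 := Z.c_add_e
    linarith
  refine Z.UDf_out hy.1.1 (hs D (Z.c + Z.e * b) ?_ h2 _ (Z.can_out hb0 hy))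
  have := Z.h0
  linarith

end

end Pool.Agent.Helper84.MT
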