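import Pool.Agent.Helper84.MT.Leaf0
import Pool.Agent.Helper26.MT.Ovl
import Pool.Agent.Helper3.ZM.Zoom

/-! MULTI-TYPE LAYER: ZOOM of a system of leaves over a Markov label of the window `c`. The point is
`Q / 2^(-cn)` minus its integer part, the leaf of a type is its window `c`, the parameter is `Y / 2^(-cn)` minus its
integer part, the chart is rescaled. Windows of the zoom are windows of the system; labels of the zoom are labels of the
system over the label; maximal labels of the zoom are maximal labels of the system. -/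

set_option autoImplicit false

namespace Pool.Agent.Helper84.MT

open Finset Filter Topology Matrix Pool.Agent.Helper69.RK Pool.Agent.Helper31.EC Pool.Agent.Helper31.EC.Sp
open Pool.Agent.Helper40.EL Pool.Agent.Helper89.LX Pool.Agent.Helper3.LF
open Pool.Agent.Helper95.LF (PdM)

noncomputable section

variable {S : Sp} {M : ℕ} {E : ℕ → ℕ} {ι : Type}

/-- two variables which are functions of each other given a third one -/
theorem tendsto_swap (T : Sp) (A A' W : ∀ k, Setoid (T.F k).Ω) {v : ℝ}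
    (h0 : Tendsto (fun k => h (fc (A k)) (fc (W k)) / (T.F k).n) UF (𝓝 v))
    (h1 : PLe (fun k => fc (A' k)) (fun k => fc (A k ⊓ W k)))
    (h2 : PLe (fun k => fc (A k)) (fun k => fc (A' k ⊓ W k))) :
    Tendsto (fun k => h (fc (A' k)) (fc (W k)) / (T.F k).n) UF (𝓝 v) := by
  have key : ∀ (B B' : ∀ k, Setoid (T.F k).Ω) (k : ℕ), h (fc (B k)) (fc (W k)) ≤ h (fc (B' k)) (fc (W k)) +
      h (fc (B k)) (fc (B' k ⊓ W k)) := by
    intro B B' k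
    have a1 := h_triangle' (fc (B k)) (fc (B' k) ⊔ fc (W k)) (fc (W k))
    have a2 := h_sup_le (fc (B' k)) (fc (W k)) (fc (W k))
    rw [h_self, add_zero] at a2
    have e2 : fc (B' k ⊓ W k) = fc (B' k) ⊔ fc (W k) := fc_inf _ _
    rw [e2]
    linarith
  have t2 := h0.sub h2
  rw [sub_zero] at t2
  have t3 := h0.add h1
  rw [add_zero] at t3
  refine tendsto_of_tendsto_of_tendsto_of_le_of_le t2 t3 (fun k => ?_) (fun k => ?_)
  · show h (fc (A k)) (fc (W k)) / (T.F k).n - h (fc (A k)) (fc (A' k ⊓ W k)) / (T.F k).n ≤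
      h (fc (A' k)) (fc (W k)) / (T.F k).n
    rw [← sub_div]
    apply div_le_div_of_nonneg_right _ (T.F k).pos.le
    have := key A A' k
    linarith
  · show h (fc (A' k)) (fc (W k)) / (T.F k).n ≤
      h (fc (A k)) (fc (W k)) / (T.F k).n + h (fc (A' k)) (fc (A k ⊓ W k)) / (T.F k).n
    rw [← add_div]
    apply div_le_div_of_nonneg_right _ (T.F k).pos.le
    exact key A' A k

/-- the data of a zoom: a Markov label of the window `c` whose base knows the cell of level `c` of the point -/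
structure ZM (s : MSys S M E ι) where
  l : Lab S
  c : ℝ
  h0 : 0 ≤ c
  h1 : c < 1
  dm : s.DMc c l
  cell : ∀ k ω ω', (l k).T.μ ω ≠ 0 → (l k).T.μ ω' ≠ 0 → (l k).V ω ω' → (l k).T.Z ω ω' →
    s.Q.cellv c k ((l k).p.π ω) = s.Q.cellv c k ((l k).p.π ω')

namespace ZM

variable {s : MSys S M E ι} (Z : ZM s)

/-- relative depth -/
def e : ℝ := 1 - Z.c

theorem e_pos : 0 < Z.e := by
  have := Z.h1
  unfold e; linarith

theorem e_le : Z.e ≤ 1 := by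
  have := Z.h0
  unfold e; linarith

theorem c_add_e : Z.c + Z.e = 1 := by unfold e; ring

/-- the space of the zoom -/
def sp : Sp := Z.l.ovr Z.e Z.e_pos

theorem sp_n (k : ℕ) : (Z.sp.F k).n = Z.e * (S.F k).n := Z.l.n_over Z.e Z.e_pos k

theorem sp_dl' (r : ℝ) (k : ℕ) : Z.sp.dl r k = S.dl (Z.e * r) k := by
  unfold dl
  rw [sp_n]
  congr 1
  ring

theorem Sub_sp {K : ℕ → ℝ} : S.Sub K ↔ Z.sp.Sub K := by
  have h1 : (fun k => Real.logb 2 (K k + 2) / (Z.sp.F k).n) =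
      fun k => Z.e⁻¹ * (Real.logb 2 (K k + 2) / (S.F k).n) := by
    funext k
    rw [sp_n]
    have := (S.F k).pos
    have := Z.e_pos
    field_simp
  unfold Sp.Sub
  rw [h1]
  constructor
  · intro h
    refine ⟨h.1, ?_⟩
    have := h.2.const_mul Z.e⁻¹
    rwa [mul_zero] at this
  · intro h
    refine ⟨h.1, ?_⟩
    have h2 := h.2.const_mul Z.e
    rw [mul_zero] at h2
    refine h2.congr fun k => ?_
    rw [← mul_assoc, mul_inv_cancel₀ Z.e_pos.ne', one_mul]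

/-- relative resolution at level `w` -/
theorem dl_rel (w : ℝ) (k : ℕ) : S.dl (Z.c + Z.e * w) k = S.dl Z.c k * Z.sp.dl w k := by
  rw [dl_add, sp_dl']

theorem dl_eq' (k : ℕ) : S.dl Z.c k * Z.sp.dl 1 k = S.dl 1 k := by
  rw [← dl_rel, mul_one, Z.c_add_e]

theorem dl_eq (k : ℕ) : S.dl 1 k / S.dl Z.c k = Z.sp.dl 1 k := by
  rw [← dl_eq', mul_comm, mul_div_assoc, div_self (S.dl_pos Z.c k).ne', mul_one]

theorem dl_c_le (k : ℕ) : S.dl Z.c k ≤ 1 := by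
  rw [← S.dl_zero k]
  exact S.dl_anti Z.h0 k

theorem supp (k : ℕ) (ω : (Z.l k).T.Ω) (h : (Z.l k).T.μ ω ≠ 0) : (S.F k).μ ((Z.l k).p.π ω) ≠ 0 :=
  (Z.l k).p.supp ω h

/-- the base of the zoom -/
theorem hZ (k : ℕ) (ω ω' : (Z.l k).T.Ω) (h : (Z.l k).T.μ ω ≠ 0) (h' : (Z.l k).T.μ ω' ≠ 0)
    (hh : (Z.sp.F k).Z ω ω') : (Z.l k).V ω ω' ∧ (Z.l k).T.Z ω ω' ∧ (S.F k).Z ((Z.l k).p.π ω) ((Z.l k).p.π ω') :=
  ⟨hh.1, hh.2, ((Z.l k).p.hZ ω ω' h h').1 hh.2⟩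

/-- the remainder of a variable -/
def fr {p : ℕ} (y : S.VV p) : Z.sp.VV p :=
  VV.of (S := Z.sp) (fun k (ω : (Z.l k).T.Ω) i => y.v k ((Z.l k).p.π ω) i / S.dl Z.c k -
    ⌊y.v k ((Z.l k).p.π ω) i / S.dl Z.c k⌋) (by
    refine ⟨1, Eventually.of_forall fun k ω _ i => ?_⟩
    have h1 := Int.floor_le (y.v k ((Z.l k).p.π ω) i / S.dl Z.c k)
    have h2 := Int.lt_floor_add_one (y.v k ((Z.l k).p.π ω) i / S.dl Z.c k)
    rw [abs_le]; constructor <;> linarith)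

theorem fr_v {p : ℕ} (y : S.VV p) (k : ℕ) (ω : (Z.l k).T.Ω) (i : Fin p) :
    (Z.fr y).v k ω i = y.v k ((Z.l k).p.π ω) i / S.dl Z.c k - ⌊y.v k ((Z.l k).p.π ω) i / S.dl Z.c k⌋ := rfl

/-- differences of remainders in one cell -/
theorem fr_sub {p : ℕ} (y : S.VV p) (k : ℕ) (ω ω' : (Z.l k).T.Ω)
    (h : y.cellv Z.c k ((Z.l k).p.π ω) = y.cellv Z.c k ((Z.l k).p.π ω')) (i : Fin p) :
    y.v k ((Z.l k).p.π ω) i - y.v k ((Z.l k).p.π ω') i = S.dl Z.c k * ((Z.fr y).v k ω i - (Z.fr y).v k ω' i) := by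
  have h1 : ⌊y.v k ((Z.l k).p.π ω) i / S.dl Z.c k⌋ = ⌊y.v k ((Z.l k).p.π ω') i / S.dl Z.c k⌋ := congrFun h i
  have hd := (S.dl_pos Z.c k).ne'
  rw [fr_v, fr_v, h1]
  field_simp
  ring

/-! ### digits of the remainder -/

/-- fine digits of the variable give fine digits of the remainder -/
theorem fr_PLe {p : ℕ} (y : S.VV p) (w : ℝ) (B : ∀ k, Setoid (Z.l k).T.Ω)
    (hB : ∀ᶠ k in UF, ∀ ω ω', (Z.l k).T.μ ω ≠ 0 → (Z.l k).T.μ ω' ≠ 0 → (Z.sp.F k).Z ω ω' → B k ω ω' →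
      y.cellv Z.c k ((Z.l k).p.π ω) = y.cellv Z.c k ((Z.l k).p.π ω') ∧
      y.cellv (Z.c + Z.e * w) k ((Z.l k).p.π ω) = y.cellv (Z.c + Z.e * w) k ((Z.l k).p.π ω')) :
    PLe (S := Z.sp) (fun k => fc (Setoid.ker ((Z.fr y).cellv w k))) (fun k => fc (B k : Setoid (Z.sp.F k).Ω)) := by
  refine PLe_cell (S := Z.sp) (Z.fr y) w B (fun _ => 1) (Z.sp.Sub_const zero_le_one) ?_
  filter_upwards [hB] with k hk ω ω' a b g r i
  obtain ⟨h1, h2⟩ := hk ω ω' a b g r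
  have h3 := Z.fr_sub y k ω ω' h1 i
  have h4 := abs_sub_le_of_floor_eq (S.dl_pos (Z.c + Z.e * w) k) (congrFun h2 i)
  rw [h3, abs_mul, abs_of_pos (S.dl_pos Z.c k), dl_rel] at h4
  rw [one_mul]
  exact le_of_mul_le_mul_left h4 (S.dl_pos Z.c k)

/-- fine digits of the remainder give fine digits of the variable -/
theorem fr_PLe' {p : ℕ} (y : S.VV p) (w : ℝ) (B : ∀ k, Setoid (Z.l k).T.Ω)
    (hB : ∀ᶠ k in UF, ∀ ω ω', (Z.l k).T.μ ω ≠ 0 → (Z.l k).T.μ ω' ≠ 0 → (Z.sp.F k).Z ω ω' → B k ω ω' →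
      y.cellv Z.c k ((Z.l k).p.π ω) = y.cellv Z.c k ((Z.l k).p.π ω') ∧
      (Z.fr y).cellv w k ω = (Z.fr y).cellv w k ω') :
    PLe (Z.l.up Z.e Z.e_pos (fun k => fc (Setoid.ker (y.cellv (Z.c + Z.e * w) k))))
      (fun k => fc (B k : Setoid (Z.sp.F k).Ω)) := by
  have h1 : Z.l.up Z.e Z.e_pos (fun k => fc (Setoid.ker (y.cellv (Z.c + Z.e * w) k))) =
      fun k => fc (Setoid.ker (((Z.l.pj.vv y).chg Z.l.V Z.e Z.e_pos).cellv (Z.c / Z.e + w) k)) := by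
    have h2 : ((Z.l.pj.vv y).chg Z.l.V Z.e Z.e_pos).cellv (Z.c / Z.e + w) =
        fun k ω => y.cellv (Z.c + Z.e * w) k ((Z.l k).p.π ω) := by
      funext k ω i
      have h4 : Z.sp.dl (Z.c / Z.e + w) k = S.dl (Z.c + Z.e * w) k := by
        rw [sp_dl']
        congr 1
        have := Z.e_pos.ne'
        field_simp
      show ⌊y.v k ((Z.l k).p.π ω) i / Z.sp.dl (Z.c / Z.e + w) k⌋ = ⌊y.v k ((Z.l k).p.π ω) i / S.dl (Z.c + Z.e * w) k⌋
      rw [h4]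
    rw [h2]
    rfl
  rw [h1]
  refine PLe_cell (S := Z.sp) ((Z.l.pj.vv y).chg Z.l.V Z.e Z.e_pos) (Z.c / Z.e + w) B (fun _ => 1)
    (Z.sp.Sub_const zero_le_one) ?_
  filter_upwards [hB] with k hk ω ω' a b g r i
  obtain ⟨h2, h3⟩ := hk ω ω' a b g r
  have h4 := Z.fr_sub y k ω ω' h2 i
  have h5 := abs_sub_le_of_floor_eq (Z.sp.dl_pos w k) (congrFun h3 i)
  show |y.v k ((Z.l k).p.π ω) i - y.v k ((Z.l k).p.π ω') i| ≤ 1 * Z.sp.dl (Z.c / Z.e + w) k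
  have h6 : Z.sp.dl (Z.c / Z.e + w) k = S.dl Z.c k * Z.sp.dl w k := by
    rw [sp_dl', ← dl_rel]
    congr 1
    have := Z.e_pos.ne'
    field_simp
  rw [h4, h6, abs_mul, abs_of_pos (S.dl_pos Z.c k), one_mul]
  exact mul_le_mul_of_nonneg_left h5 (S.dl_pos Z.c k).le

/-! ### rates over the label -/

theorem h_upx (x y : Part S) (k : ℕ) : h (Z.l.up Z.e Z.e_pos x k) (Z.l.up Z.e Z.e_pos y k) =
    h ((Z.l k).p.map (x k)) ((Z.l k).p.map (y k) ⊔ (Z.l k).v) := (Z.l k).h_up Z.e Z.e_pos (x k) (y k)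

/-- conditional rates given a condition without leak -/
theorem tendsto_up {x y : Part S} (hl : Nul S (fun k => (Z.l k).leak (y k))) {v : ℝ}
    (hv : Tendsto (fun k => h (x k) (y k) / (S.F k).n) UF (𝓝 v)) :
    Tendsto (fun k => h (Z.l.up Z.e Z.e_pos x k) (Z.l.up Z.e Z.e_pos y k) / (Z.sp.F k).n) UF (𝓝 (v / Z.e)) := by
  have e1 : (fun k => h (Z.l.up Z.e Z.e_pos x k) (Z.l.up Z.e Z.e_pos y k) / (Z.sp.F k).n) =
      fun k => (h ((Z.l k).p.map (x k)) ((Z.l k).p.map (y k) ⊔ (Z.l k).v) / (S.F k).n) / Z.e := by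
    funext k
    rw [h_upx, sp_n, div_div, mul_comm Z.e]
  rw [e1]
  apply Tendsto.div_const
  have t1 := hv.sub hl
  rw [sub_zero] at t1
  refine tendsto_of_tendsto_of_tendsto_of_le_of_le t1 hv (fun k => ?_) (fun k => ?_)
  · show h (x k) (y k) / (S.F k).n - (Z.l k).leak (y k) / (S.F k).n ≤ _
    rw [← sub_div]
    apply div_le_div_of_nonneg_right _ (S.F k).pos.le
    have h3 := I_eq' (Z.l k).v ((Z.l k).p.map (x k)) ((Z.l k).p.map (y k))
    have h4 : I (Z.l k).v ((Z.l k).p.map (x k)) ((Z.l k).p.map (y k)) ≤ (Z.l k).leak (y k) :=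
      I_mono_right (((Z.l k).p.map_le_top _).trans le_sup_left)
    rw [sup_comm (Z.l k).v, (Z.l k).p.h_map] at h3
    linarith
  · show _ ≤ h (x k) (y k) / (S.F k).n
    apply div_le_div_of_nonneg_right _ (S.F k).pos.le
    rw [← (Z.l k).p.h_map]
    exact h_anti le_sup_left

/-! ### the zoom of a type -/

section leaf

variable (l : Leaf S s.Q E)

/-- the map of parameters -/
def zA (k : ℕ) (ω : (Z.l k).T.Ω) (y : Fin l.e → ℝ) : Fin l.e → ℝ :=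
  fun a => (⌊l.Y.v k ((Z.l k).p.π ω) a / S.dl Z.c k⌋ + y a) * S.dl Z.c k

theorem zA_sub (k : ℕ) (ω : (Z.l k).T.Ω) (y : Fin l.e → ℝ) (a : Fin l.e) :
    Z.zA l k ω y a - l.Y.v k ((Z.l k).p.π ω) a = S.dl Z.c k * (y a - (Z.fr l.Y).v k ω a) := by
  have hd := (S.dl_pos Z.c k).ne'
  unfold zA
  rw [fr_v]
  field_simp
  ring

theorem zA_Y (k : ℕ) (ω : (Z.l k).T.Ω) : Z.zA l k ω ((Z.fr l.Y).v k ω) = l.Y.v k ((Z.l k).p.π ω) := by
  funext a
  have h1 := Z.zA_sub l k ω ((Z.fr l.Y).v k ω) a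
  rw [sub_self, mul_zero] at h1
  linarith

theorem zA_cube (k : ℕ) (ω : (Z.l k).T.Ω) (y : Fin l.e → ℝ) (a : Fin l.e) {r : ℝ}
    (hy : |y a - (Z.fr l.Y).v k ω a| ≤ r) : |Z.zA l k ω y a - l.Y.v k ((Z.l k).p.π ω) a| ≤ S.dl Z.c k * r := by
  rw [zA_sub, abs_mul, abs_of_pos (S.dl_pos Z.c k)]
  exact mul_le_mul_of_nonneg_left hy (S.dl_pos Z.c k).le

theorem zA_update (k : ℕ) (ω : (Z.l k).T.Ω) (y : Fin l.e → ℝ) (i : Fin l.e) (t : ℝ) :
    Z.zA l k ω (Function.update y i t) = Function.update (Z.zA l k ω y) i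
      ((⌊l.Y.v k ((Z.l k).p.π ω) i / S.dl Z.c k⌋ + t) * S.dl Z.c k) := by
  funext a
  by_cases h : a = i
  · subst h
    rw [Function.update_self]
    unfold zA
    rw [Function.update_self]
  · rw [Function.update_of_ne h]
    unfold zA
    rw [Function.update_of_ne h]

/-- the chart of the zoom -/
def zF (k : ℕ) (ω : (Z.l k).T.Ω) (y : Fin l.e → ℝ) : Fin M → ℝ :=
  fun j => l.F k ((Z.l k).p.π ω) (Z.zA l k ω y) j / S.dl Z.c k - ⌊s.Q.v k ((Z.l k).p.π ω) j / S.dl Z.c k⌋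

/-- the functions of the zoom -/
def zal (k : ℕ) (ω : (Z.l k).T.Ω) (D : ℕ) : Set ((Fin l.e → ℝ) → ℝ) :=
  {f | ∃ g ∈ l.al k ((Z.l k).p.π ω) D, f = fun y => g (Z.zA l k ω y)}

theorem zal_alg (k : ℕ) (ω : (Z.l k).T.Ω)
    (h : Alg l.e (l.Y.v k ((Z.l k).p.π ω)) (l.al k ((Z.l k).p.π ω))) :
    Alg l.e ((Z.fr l.Y).v k ω) (Z.zal l k ω) where
  const := fun a => ⟨fun _ => a, h.const a, rfl⟩
  add := by
    rintro D f g ⟨f', hf, rfl⟩ ⟨g', hg, rfl⟩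
    exact ⟨_, h.add D _ _ hf hg, rfl⟩
  mul := by
    rintro D D' f g ⟨f', hf, rfl⟩ ⟨g', hg, rfl⟩
    exact ⟨_, h.mul D D' _ _ hf hg, rfl⟩
  mono := by
    rintro D D' hD f ⟨f', hf, rfl⟩
    exact ⟨_, h.mono D D' hD hf, rfl⟩
  crd := by
    intro i
    refine ⟨fun y => (S.dl Z.c k)⁻¹ * y i + -(⌊l.Y.v k ((Z.l k).p.π ω) i / S.dl Z.c k⌋ : ℝ),
      h.add 1 _ _ (h.smul (h.crd i) _) (h.const' 1 _), ?_⟩
    funext y
    have hd := (S.dl_pos Z.c k).ne'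
    unfold zA
    field_simp
    ring
  der := by
    rintro D f ⟨g, hg, rfl⟩ i
    obtain ⟨g2, hg2, hd⟩ := h.der D g hg i
    refine ⟨fun y => S.dl Z.c k * g2 (Z.zA l k ω y), ⟨_, h.smul hg2 (S.dl Z.c k), rfl⟩, fun y hy => ?_⟩
    have h1 := hd (Z.zA l k ω y) (fun j => by
      rw [zA_sub, abs_mul, abs_of_pos (S.dl_pos Z.c k)]
      have h2 := hy j
      have h3 := Z.dl_c_le k
      have h4 := S.dl_pos Z.c k
      have h5 := abs_nonneg (y j - (Z.fr l.Y).v k ω j)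
      nlinarith)
    have h2 : HasDerivAt (fun t : ℝ => ((⌊l.Y.v k ((Z.l k).p.π ω) i / S.dl Z.c k⌋ : ℝ) + t) * S.dl Z.c k)
        (S.dl Z.c k) (y i) := by
      have h3 := ((hasDerivAt_id (y i)).const_add (⌊l.Y.v k ((Z.l k).p.π ω) i / S.dl Z.c k⌋ : ℝ)).mul_const
        (S.dl Z.c k)
      rw [one_mul] at h3
      exact h3
    have h4 : Z.zA l k ω y i = ((⌊l.Y.v k ((Z.l k).p.π ω) i / S.dl Z.c k⌋ : ℝ) + y i) * S.dl Z.c k := rfl
    rw [h4] at h1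
    have h5 := HasDerivAt.comp (y i) h1 h2
    have h6 : ((fun t => g (Function.update (Z.zA l k ω y) i t)) ∘
        fun t : ℝ => ((⌊l.Y.v k ((Z.l k).p.π ω) i / S.dl Z.c k⌋ : ℝ) + t) * S.dl Z.c k) =
        fun t => g (Z.zA l k ω (Function.update y i t)) := by
      funext t
      rw [zA_update]
      rfl
    rw [h6, mul_comm] at h5
    exact h5

theorem zal_crF (k : ℕ) (ω : (Z.l k).T.Ω)
    (h : Alg l.e (l.Y.v k ((Z.l k).p.π ω)) (l.al k ((Z.l k).p.π ω)))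
    (h' : ∀ j, (fun y => l.F k ((Z.l k).p.π ω) y j) ∈ l.al k ((Z.l k).p.π ω) 1) (j : Fin M) :
    (fun y => Z.zF l k ω y j) ∈ Z.zal l k ω 1 := by
  refine ⟨fun y => (S.dl Z.c k)⁻¹ * l.F k ((Z.l k).p.π ω) y j + -(⌊s.Q.v k ((Z.l k).p.π ω) j / S.dl Z.c k⌋ : ℝ),
      h.add 1 _ _ (h.smul (h' j) _) (h.const' 1 _), ?_⟩
  funext y
  unfold zF
  rw [div_eq_inv_mul, sub_eq_add_neg]

/-- the window `c` in the space of the label -/
def zLa (k : ℕ) : Setoid (Z.l k).T.Ω :=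
  Setoid.comap (Z.l k).p.π (l.La k ⊓ Setoid.ker (l.Y.cellv Z.c k))

theorem zLa_fc : (fun k => (fc (Z.zLa l k : Setoid (Z.sp.F k).Ω) : FL (Z.sp.F k))) =
    Z.l.up Z.e Z.e_pos (l.win Z.c) := rfl

/-- THE ZOOM OF A TYPE -/
def leaf (hl : Nul S (fun k => (Z.l k).leak (l.win Z.c k))) : Leaf Z.sp (Z.fr s.Q) E where
  e := l.e
  he := l.he
  La := Z.zLa l
  Y := Z.fr l.Y
  F := Z.zF l
  fn := by
    filter_upwards [l.fn] with k hk ω ω' a b g r
    obtain ⟨g1, g2, g3⟩ := Z.hZ k ω ω' a b g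
    have h1 := hk _ _ (Z.supp k ω a) (Z.supp k ω' b) g3 r.1
    have h2 := Z.cell k ω ω' a b g1 g2
    have h3 : l.Y.cellv Z.c k ((Z.l k).p.π ω) = l.Y.cellv Z.c k ((Z.l k).p.π ω') := r.2
    have h4 : Z.zA l k ω = Z.zA l k ω' := by
      funext y i
      have h5 : ⌊l.Y.v k ((Z.l k).p.π ω) i / S.dl Z.c k⌋ = ⌊l.Y.v k ((Z.l k).p.π ω') i / S.dl Z.c k⌋ := congrFun h3 i
      unfold zA
      rw [h5]
    funext y j
    have h5 : ⌊s.Q.v k ((Z.l k).p.π ω) j / S.dl Z.c k⌋ = ⌊s.Q.v k ((Z.l k).p.π ω') j / S.dl Z.c k⌋ := congrFun h2 j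
    show l.F k ((Z.l k).p.π ω) (Z.zA l k ω y) j / S.dl Z.c k - ⌊s.Q.v k ((Z.l k).p.π ω) j / S.dl Z.c k⌋ =
      l.F k ((Z.l k).p.π ω') (Z.zA l k ω' y) j / S.dl Z.c k - ⌊s.Q.v k ((Z.l k).p.π ω') j / S.dl Z.c k⌋
    rw [h1, h4, h5]
  bd := by
    obtain ⟨K, hK, hb⟩ := l.lip
    obtain ⟨L, hL, hb'⟩ := l.pt
    refine ⟨fun k => K k * l.e + L k + 1, Z.Sub_sp.mp
      (((hK.mul (S.Sub_const (Nat.cast_nonneg _))).add hL).add (S.Sub_const zero_le_one)), ?_⟩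
    filter_upwards [hb, hb', hK.1, hL.1] with k h1 h2 hK0 hL0 ω hω y hy j
    have hω' := Z.supp k ω hω
    have hd := S.dl_pos Z.c k
    have hd1 := Z.dl_c_le k
    have h3 : ∀ i, |Z.zA l k ω y i - l.Y.v k ((Z.l k).p.π ω) i| ≤ S.dl Z.c k := fun i => by
      have := Z.zA_cube l k ω y i (hy i)
      rwa [mul_one] at this
    have h4 := h1 _ hω' (Z.zA l k ω y) (l.Y.v k ((Z.l k).p.π ω)) (fun i => (h3 i).trans hd1)
      (fun i => by rw [sub_self, abs_zero]; exact zero_le_one) j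
    have h5 : ∑ i, |Z.zA l k ω y i - l.Y.v k ((Z.l k).p.π ω) i| ≤ l.e * S.dl Z.c k := by
      refine (Finset.sum_le_sum fun i _ => h3 i).trans ?_
      rw [Finset.sum_const, Finset.card_univ, Fintype.card_fin, nsmul_eq_mul]
    have h6 := h2 _ hω' j
    have h7 : S.dl 1 k ≤ S.dl Z.c k := S.dl_anti Z.h1.le k
    have h8 : K k * ∑ i, |Z.zA l k ω y i - l.Y.v k ((Z.l k).p.π ω) i| ≤ K k * (l.e * S.dl Z.c k) :=
      mul_le_mul_of_nonneg_left h5 hK0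
    have h9 : L k * S.dl 1 k ≤ L k * S.dl Z.c k := mul_le_mul_of_nonneg_left h7 hL0
    have h10 := Int.floor_le (s.Q.v k ((Z.l k).p.π ω) j / S.dl Z.c k)
    have h11 := Int.lt_floor_add_one (s.Q.v k ((Z.l k).p.π ω) j / S.dl Z.c k)
    have e1 : Z.zF l k ω y j = (l.F k ((Z.l k).p.π ω) (Z.zA l k ω y) j -
        l.F k ((Z.l k).p.π ω) (l.Y.v k ((Z.l k).p.π ω)) j) / S.dl Z.c k -
        (s.Q.v k ((Z.l k).p.π ω) j - l.F k ((Z.l k).p.π ω) (l.Y.v k ((Z.l k).p.π ω)) j) / S.dl Z.c k +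
        (s.Q.v k ((Z.l k).p.π ω) j / S.dl Z.c k - ⌊s.Q.v k ((Z.l k).p.π ω) j / S.dl Z.c k⌋) := by
      unfold zF
      ring
    have h12 : |(l.F k ((Z.l k).p.π ω) (Z.zA l k ω y) j -
        l.F k ((Z.l k).p.π ω) (l.Y.v k ((Z.l k).p.π ω)) j) / S.dl Z.c k| ≤ K k * l.e := by
      rw [abs_div, abs_of_pos hd, div_le_iff₀ hd]
      refine h4.trans (h8.trans (le_of_eq ?_))
      ring
    have h13 : |(s.Q.v k ((Z.l k).p.π ω) j - l.F k ((Z.l k).p.π ω) (l.Y.v k ((Z.l k).p.π ω)) j) / S.dl Z.c k| ≤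
        L k := by
      rw [abs_div, abs_of_pos hd, div_le_iff₀ hd]
      exact h6.trans h9
    have h14 : |s.Q.v k ((Z.l k).p.π ω) j / S.dl Z.c k - ⌊s.Q.v k ((Z.l k).p.π ω) j / S.dl Z.c k⌋| ≤ 1 := by
      rw [abs_le]
      constructor <;> linarith
    show |Z.zF l k ω y j| ≤ _
    rw [e1]
    refine (abs_add_le _ _).trans (add_le_add ?_ h14)
    exact (abs_sub _ _).trans (add_le_add h12 h13)
  al := Z.zal l
  alg := by
    filter_upwards [l.alg] with k hk ω hω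
    exact Z.zal_alg l k ω (hk _ (Z.supp k ω hω))
  crF := by
    filter_upwards [l.alg, l.crF] with k hk hk' ω hω j
    exact Z.zal_crF l k ω (hk _ (Z.supp k ω hω)) (hk' _ (Z.supp k ω hω)) j
  seg := by
    intro D
    obtain ⟨K, hK, hb⟩ := l.seg D
    refine ⟨K, Z.Sub_sp.mp hK, ?_⟩
    filter_upwards [hb] with k hk ω hω f hf y z hy hz
    obtain ⟨g, hg, rfl⟩ := hf
    have hd1 := Z.dl_c_le k
    have h1 := hk _ (Z.supp k ω hω) g hg (Z.zA l k ω y) (Z.zA l k ω z)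
      (fun i => (Z.zA_cube l k ω y i (hy i)).trans (by rw [mul_one]; exact hd1))
      (fun i => (Z.zA_cube l k ω z i (hz i)).trans (by rw [mul_one]; exact hd1))
    have h2 : (fun u : ℝ => g (Z.zA l k ω (fun i => y i + u * (z i - y i)))) =
        fun u => g (fun i => Z.zA l k ω y i + u * (Z.zA l k ω z i - Z.zA l k ω y i)) := by
      funext u
      congr 1
      funext i
      unfold zA
      ring
    show RemS (E D) (K k) (fun u : ℝ => g (Z.zA l k ω (fun i => y i + u * (z i - y i)))) ∧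
      BmS (K k) (fun u : ℝ => g (Z.zA l k ω (fun i => y i + u * (z i - y i))))
    rw [h2]
    exact h1
  pt := by
    obtain ⟨K, hK, hb⟩ := l.pt
    refine ⟨K, Z.Sub_sp.mp hK, ?_⟩
    filter_upwards [hb] with k hk
    intro (ω : (Z.l k).T.Ω) hω i
    have h1 := hk _ (Z.supp k ω hω) i
    have hd := S.dl_pos Z.c k
    have e1 : (Z.fr s.Q).v k ω i - Z.zF l k ω ((Z.fr l.Y).v k ω) i =
        (s.Q.v k ((Z.l k).p.π ω) i - l.F k ((Z.l k).p.π ω) (l.Y.v k ((Z.l k).p.π ω)) i) / S.dl Z.c k := by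
      have a1 := Z.fr_v s.Q k ω i
      have a2 : Z.zF l k ω ((Z.fr l.Y).v k ω) i = l.F k ((Z.l k).p.π ω) (l.Y.v k ((Z.l k).p.π ω)) i / S.dl Z.c k -
          ⌊s.Q.v k ((Z.l k).p.π ω) i / S.dl Z.c k⌋ :=
        congrArg (fun v => l.F k ((Z.l k).p.π ω) v i / S.dl Z.c k - (⌊s.Q.v k ((Z.l k).p.π ω) i / S.dl Z.c k⌋ : ℝ))
          (Z.zA_Y l k ω)
      linear_combination a1 - a2
    show |(Z.fr s.Q).v k ω i - Z.zF l k ω ((Z.fr l.Y).v k ω) i| ≤ _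
    rw [e1, abs_div, abs_of_pos hd, div_le_iff₀ hd]
    refine h1.trans (le_of_eq ?_)
    rw [mul_assoc, mul_comm (Z.sp.dl 1 k), Z.dl_eq']
  full := by
    have t1 := Z.tendsto_up hl (l.full_win Z.h0 Z.h1.le le_rfl)
    have e1 : (l.e : ℝ) * (1 - Z.c) / Z.e = l.e := by
      have := Z.e_pos.ne'
      unfold e at this ⊢
      field_simp
    rw [e1] at t1
    have p1 : PLe (S := Z.sp) (fun k => fc (Setoid.ker ((Z.fr l.Y).cellv 1 k)))
        (fun k => fc (Setoid.comap (Z.l k).p.π (Setoid.ker (l.Y.cellv 1 k)) ⊓ Z.zLa l k)) := by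
      apply Z.fr_PLe l.Y 1
      refine Eventually.of_forall fun k ω ω' _ _ _ r => ⟨r.2.2, ?_⟩
      rw [mul_one, Z.c_add_e]
      exact r.1
    have p2 : PLe (Z.l.up Z.e Z.e_pos (fun k => fc (Setoid.ker (l.Y.cellv 1 k))))
        (fun k => fc (Setoid.ker ((Z.fr l.Y).cellv 1 k) ⊓ Z.zLa l k : Setoid (Z.sp.F k).Ω)) := by
      have h1 := Z.fr_PLe' l.Y 1 (fun k => Setoid.ker ((Z.fr l.Y).cellv 1 k) ⊓ Z.zLa l k)
        (Eventually.of_forall fun k ω ω' _ _ _ r => ⟨r.2.2, r.1⟩)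
      rw [mul_one, Z.c_add_e] at h1
      exact h1
    exact tendsto_swap Z.sp (fun k => Setoid.comap (Z.l k).p.π (Setoid.ker (l.Y.cellv 1 k)))
      (fun k => Setoid.ker ((Z.fr l.Y).cellv 1 k)) (Z.zLa l) t1 p1 p2

end leaf

/-- THE ZOOM -/
def sys : MSys Z.sp M E ι := ⟨Z.fr s.Q, fun i => Z.leaf (s.lf i) (Z.dm (some i))⟩

theorem sys_Q : Z.sys.Q = Z.fr s.Q := rfl

end ZM

end

end Pool.Agent.Helper84.MT
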