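import Pool.Agent.Helper26.MT.Zw
import Pool.Agent.Helper81.MT.Trn

/-! MULTI-TYPE LAYER: the numbers `h(P_a, z_b | kappa_c)` (the cells of level `a` of the coordinates other than `z`, of
level `b` of the coordinate `z`) as entropies of the lattice; for a zoom, for a truncation. -/

set_option autoImplicit false

namespace Pool.Agent.Helper84.MT

open Finset Filter Topology Matrix Pool.Agent.Helper69.RK Pool.Agent.Helper31.EC Pool.Agent.Helper31.EC.Sp
open Pool.Agent.Helper40.EL Pool.Agent.Helper89.LX Pool.Agent.Helper3.LF Pool.Agent.Helper95.LF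
open Pool.Agent.Helper36.AM (volO HQ HQ_eq STO MCl DGR cel2)

noncomputable section

variable {S : Sp} {M : ℕ} {E : ℕ → ℕ} {ι : Type}

/-- the point with the coordinate `z` replaced by `0` -/
def ozr (Q : S.VV M) (z : Fin M) : S.VV M where
  v := fun k ω i => if i = z then 0 else Q.v k ω i
  bd := by
    obtain ⟨K, hK, hb⟩ := Q.bd
    refine ⟨K, hK, ?_⟩
    filter_upwards [hb, hK.1] with k h1 h2 ω hω i
    by_cases h : i = z
    · rw [if_pos h, abs_zero]
      exact h2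
    · rw [if_neg h]
      exact h1 ω hω i

theorem ozr_v (Q : S.VV M) (z : Fin M) (k : ℕ) (ω : (S.F k).Ω) (i : Fin M) :
    (ozr Q z).v k ω i = if i = z then 0 else Q.v k ω i := rfl

/-- the cells of the other coordinates -/
theorem ozr_ker (Q : S.VV M) (z : Fin M) (a : ℝ) (k : ℕ) : Setoid.ker ((ozr Q z).cellv a k) =
    Setoid.ker (fun ω (j : {j : Fin M // j ≠ z}) => Q.cellv a k ω j.1) := by
  apply Setoid.ext
  intro ω ω'
  constructor
  · intro h
    show (fun j : {j : Fin M // j ≠ z} => Q.cellv a k ω j.1) = fun j : {j : Fin M // j ≠ z} => Q.cellv a k ω' j.1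
    funext j
    have h1 : ⌊(ozr Q z).v k ω j.1 / S.dl a k⌋ = ⌊(ozr Q z).v k ω' j.1 / S.dl a k⌋ := congrFun h j.1
    rw [ozr_v, ozr_v, if_neg j.2, if_neg j.2] at h1
    exact h1
  · intro h
    show (ozr Q z).cellv a k ω = (ozr Q z).cellv a k ω'
    funext j
    show ⌊(ozr Q z).v k ω j / S.dl a k⌋ = ⌊(ozr Q z).v k ω' j / S.dl a k⌋
    rw [ozr_v, ozr_v]
    by_cases hj : j = z
    · rw [if_pos hj, if_pos hj]
    · rw [if_neg hj, if_neg hj]
      exact congrFun h ⟨j, hj⟩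

theorem ozr_cell {Q : S.VV M} {z : Fin M} {a : ℝ} {k : ℕ} {ω ω' : (S.F k).Ω} (h : Q.cellv a k ω = Q.cellv a k ω') :
    (ozr Q z).cellv a k ω = (ozr Q z).cellv a k ω' := by
  funext j
  show ⌊(ozr Q z).v k ω j / S.dl a k⌋ = ⌊(ozr Q z).v k ω' j / S.dl a k⌋
  rw [ozr_v, ozr_v]
  by_cases hj : j = z
  · rw [if_pos hj, if_pos hj]
  · rw [if_neg hj, if_neg hj]
    exact congrFun h j

/-- the other coordinates up to the level `a`, the coordinate `z` up to the level `b` -/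
def cel2L (Q : S.VV M) (z : Fin M) (a b : ℝ) : S.L := Q.dg b ⊔ (ozr Q z).dg a

/-- the information of the cells -/
def cel2I (Q : S.VV M) (z : Fin M) (a b : ℝ) : S.Inf := Inf.sup (Q.bdd b).toInf ((ozr Q z).bdd a).toInf

theorem cel2_rpI (Q : S.VV M) (z : Fin M) (a b : ℝ) : cel2 Q z a b = rpI (cel2I Q z a b) := by
  funext k
  have h1 := ozr_ker Q z a k
  show fc (Setoid.ker (Q.cellv b k) ⊓ Setoid.ker (fun ω (j : {j : Fin M // j ≠ z}) => Q.cellv a k ω j.1)) =
    fc (Setoid.ker (Q.cellv b k) ⊓ Setoid.ker ((ozr Q z).cellv a k))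
  rw [h1]

theorem cl_cel2I (Q : S.VV M) (z : Fin M) (a b : ℝ) : cl (cel2I Q z a b) = cel2L Q z a b := by
  unfold cel2I cel2L
  rw [cl_sup, ← io_eq, ← io_eq]
  rfl

/-- THE NUMBERS as entropies of the lattice -/
theorem num_iff (Q : S.VV M) (z : Fin M) (a b : ℝ) (l : Lab S) (v : ℝ) :
    Tendsto (fun k => h ((l k).p.map (cel2 Q z a b k)) (l k).v / (S.F k).n) UF (𝓝 v) ↔
      H (up1 l (cel2L Q z a b)) = v := by
  have h1 : H (up1 l (cel2L Q z a b)) = ul (fun k => h ((l k).p.map (cel2 Q z a b k)) (l k).v / (S.F k).n) := by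
    rw [← cl_cel2I, H_up1_cl, cel2_rpI]
  have hU : UB (fun k => h ((l k).p.map (cel2 Q z a b k)) (l k).v / (S.F k).n) := by
    rw [cel2_rpI]
    refine UB.sandwich (UB_const 0) (rpI_Bd (cel2I Q z a b)) ?_ ?_
    · exact Eventually.of_forall fun k => div_nonneg (h_nonneg _ _) (S.F k).pos.le
    · refine Eventually.of_forall fun k => div_le_div_of_nonneg_right ?_ (S.F k).pos.le
      rw [← (l k).p.H_map]
      exact h_le_H _ _
  rw [h1]
  constructor
  · intro h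
    exact ul_eq h
  · intro h
    rw [← h]
    exact ul_tendsto hU

/-- the numbers over `kappa_c` do not depend on the label -/
theorem MSys.IsKap.num_iff {s : MSys S M E ι} {c : ℝ} {l l' : Lab S} (hl : s.IsKap c l) (hl' : s.IsKap c l')
    (z : Fin M) (a b v : ℝ) :
    Tendsto (fun k => h ((l k).p.map (cel2 s.Q z a b k)) (l k).v / (S.F k).n) UF (𝓝 v) ↔
      Tendsto (fun k => h ((l' k).p.map (cel2 s.Q z a b k)) (l' k).v / (S.F k).n) UF (𝓝 v) := by
  rw [Pool.Agent.Helper84.MT.num_iff, Pool.Agent.Helper84.MT.num_iff, hl.H_eq hl']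

/-- the number `h(P_a, z_b | kappa_c)` -/
def MSys.num [Countable ι] (s : MSys S M E ι) (z : Fin M) (c a b : ℝ) : ℝ := H (up1 (s.kap c) (cel2L s.Q z a b))

theorem MSys.num_eq [Countable ι] (s : MSys S M E ι) (z : Fin M) {c : ℝ} (a b : ℝ) {l : Lab S} (hl : s.IsKap c l) :
    H (up1 l (cel2L s.Q z a b)) = s.num z c a b := hl.H_eq (s.kap_isKap c) _

theorem MSys.num_tendsto [Countable ι] (s : MSys S M E ι) (z : Fin M) {c : ℝ} (a b : ℝ) {l : Lab S}
    (hl : s.IsKap c l) (v : ℝ) :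
    Tendsto (fun k => h ((l k).p.map (cel2 s.Q z a b k)) (l k).v / (S.F k).n) UF (𝓝 v) ↔ s.num z c a b = v := by
  rw [Pool.Agent.Helper84.MT.num_iff, s.num_eq z a b hl]

theorem cel2L_mono (Q : S.VV M) (z : Fin M) {a a' b b' : ℝ} (ha : a ≤ a') (hb : b ≤ b') :
    cel2L Q z a b ≤ cel2L Q z a' b' := sup_le_sup (Q.dg_mono hb) ((ozr Q z).dg_mono ha)

theorem MSys.num_mono [Countable ι] (s : MSys S M E ι) (z : Fin M) (c : ℝ) {a a' b b' : ℝ} (ha : a ≤ a')
    (hb : b ≤ b') : s.num z c a b ≤ s.num z c a' b' := by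
  unfold MSys.num
  exact H_mono (up1_mono _ (cel2L_mono s.Q z ha hb))

theorem ozr_dg_le (Q : S.VV M) (z : Fin M) (a : ℝ) : (ozr Q z).dg a ≤ Q.dg a := by
  apply VV.dg_le_dg _ _ _ _ (fun _ _ => True) Typ_true (fun _ => 1) (S.Sub_const zero_le_one)
  refine Eventually.of_forall fun k ω ω' _ _ _ _ _ h i => ?_
  rw [ozr_v, ozr_v, one_mul]
  by_cases hi : i = z
  · rw [if_pos hi, if_pos hi, sub_self, abs_zero]
    exact (S.dl_pos a k).le
  · rw [if_neg hi, if_neg hi]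
    exact h i

/-- the full cell -/
theorem cel2L_self (Q : S.VV M) (z : Fin M) (a : ℝ) : cel2L Q z a a = Q.dg a := by
  unfold cel2L
  exact sup_eq_left.mpr (ozr_dg_le Q z a)

theorem MSys.num_self [Countable ι] (s : MSys S M E ι) (z : Fin M) (c : ℝ) : s.num z c 1 1 = HQ s c := by
  unfold MSys.num HQ
  rw [cel2L_self]

/-! ### zooms -/

namespace ZM

variable {s : MSys S M E ι} (Z : ZM s)

theorem fr_ozr_v (z : Fin M) (k : ℕ) (ω : (Z.l k).T.Ω) (i : Fin M) :
    (Z.fr (ozr s.Q z)).v k ω i = (ozr (Z.fr s.Q) z).v k ω i := by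
  rw [fr_v]
  have h1 : (ozr (Z.fr s.Q) z).v k ω i = if i = z then 0 else (Z.fr s.Q).v k ω i := rfl
  rw [h1, ozr_v]
  by_cases hi : i = z
  · rw [if_pos hi, if_pos hi, zero_div, Int.floor_zero, Int.cast_zero, sub_zero]
  · rw [if_neg hi, if_neg hi, fr_v]

theorem dg_congr_v {p : ℕ} {T : Sp} {x y : T.VV p} (h : ∀ k ω i, x.v k ω i = y.v k ω i) (a : ℝ) : x.dg a = y.dg a := by
  apply le_antisymm
  · apply VV.dg_le_dg _ _ _ _ (fun _ _ => True) Typ_true (fun _ => 1) (T.Sub_const zero_le_one)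
    refine Eventually.of_forall fun k ω ω' _ _ _ _ _ h' i => ?_
    rw [h, h, one_mul]
    exact h' i
  · apply VV.dg_le_dg _ _ _ _ (fun _ _ => True) Typ_true (fun _ => 1) (T.Sub_const zero_le_one)
    refine Eventually.of_forall fun k ω ω' _ _ _ _ _ h' i => ?_
    rw [← h, ← h, one_mul]
    exact h' i

/-- the cells of the zoom -/
theorem cel2L_sys (z : Fin M) (a b : ℝ) : cel2L Z.sys.Q z a b = Z.U (cel2L s.Q z (Z.c + Z.e * a) (Z.c + Z.e * b)) := by
  have h1 : (ozr Z.sys.Q z).dg a = Z.U ((ozr s.Q z).dg (Z.c + Z.e * a)) := by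
    rw [← Z.fr_dg (ozr s.Q z) (fun k ω ω' h h' hV hZ => ozr_cell (Z.cell k ω ω' h h' hV hZ)) a]
    exact dg_congr_v (fun k ω i => (Z.fr_ozr_v z k ω i).symm) a
  unfold cel2L
  rw [h1, Z.Q_dg]
  exact (Z.l.upL_sup Z.e Z.e_pos _ _).symm

/-- THE NUMBERS OF THE ZOOM -/
theorem num_sys [Countable ι] (z : Fin M) {c : ℝ} (hc : 0 ≤ c) (a b : ℝ) :
    s.num z (Z.c + Z.e * c) (Z.c + Z.e * a) (Z.c + Z.e * b) = Z.e * Z.sys.num z c a b := by
  unfold MSys.num
  rw [cel2L_sys]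
  exact Z.H_kap hc (s.kap_isKap _) (Z.sys.kap_isKap c) _

end ZM

end

end Pool.Agent.Helper84.MT
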