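import Pool.Agent.Helper81.DC.Trn
import Pool.Agent.Helper26.MT.Zd

/-! MULTI-TYPE LAYER: classes given by typical properties of forms are closed under zoom. -/

set_option autoImplicit false

namespace Pool.Agent.Helper81.DC

open Finset Filter Topology Matrix Pool.Agent.Helper69.RK Pool.Agent.Helper31.EC Pool.Agent.Helper31.EC.Sp
open Pool.Agent.Helper40.EL Pool.Agent.Helper89.LX Pool.Agent.Helper3.LF Pool.Agent.Helper84.MT
open Pool.Agent.Helper36.AM Pool.Agent.Helper26.MZ Pool.Agent.Helper95.LF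
open Pool.Agent.Helper3.ZM (aff MM afm afm_symm afm_nonneg phi_afm)

noncomputable section

variable {S : Sp} {M : ℕ} {E : ℕ → ℕ} {ι : Type}

/-- properties which can be checked for the image of the form under a homothety -/
def ZmP (pr : Prp M) : Prop := ∀ (D : ℕ) (A : Matrix (Mon M D) (Mon M D) ℝ), A.IsSymm →
  (∀ x, x ⬝ᵥ x ≤ x ⬝ᵥ (A *ᵥ x)) → ∀ (o : Fin M → ℝ) (δ r : ℝ) (P : Fin M → ℝ) (B : ℝ), 0 < δ → δ ≤ 1 → 0 < r →
    pr D r (1 + afm o δ⁻¹ A) P B → pr D (δ⁻¹ * r) A (aff o δ⁻¹ P) (δ ^ 2 * B)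

theorem prU_ZmP (k : ℕ) : ZmP (prU M k) := by
  intro D A _ _ o δ r P B hδ _ _ h
  refine UDp.mono (c := δ ^ 2) h (sq_nonneg δ) (fun v => ?_) le_rfl
  have h1 := Jq_mono r (B := 1 + afm o δ⁻¹ A) (afm_le_one_afm o δ⁻¹ A) P v
  rw [Jq_afm, Matrix.smul_mulVec, dotProduct_smul, smul_eq_mul] at h1
  have h2 := mul_le_mul_of_nonneg_left h1 (sq_nonneg δ)
  rw [← mul_assoc, ← mul_pow, mul_inv_cancel₀ hδ.ne', one_pow, one_mul] at h2
  exact h2

theorem Prp_congr {pr : Prp M} {D : ℕ} {r r' : ℝ} {A A' : Matrix (Mon M D) (Mon M D) ℝ} {P P' : Fin M → ℝ} {B B' : ℝ}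
    (h : pr D r A P B) (h1 : r = r') (h2 : A = A') (h3 : P = P') (h4 : B = B') : pr D r' A' P' B' := by
  subst h1
  subst h2
  subst h3
  subst h4
  exact h

/-- ZOOMS -/
theorem PTs.zoom [Finite ι] {pr : Prp M} (hpr : ZmP pr) {s : MSys S M E ι} (h : PTs pr s) (Z : ZM s) :
    PTs pr Z.sys := by
  intro D b hb0 hb1 y hy η hη
  have he := Z.e_pos
  have h0 := mul_nonneg he.le hb0
  have h2 : Z.c + Z.e * b ≤ 1 := by
    have h3 := mul_le_mul_of_nonneg_left hb1 he.le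
    have h4 := Z.c_add_e
    linarith
  have h1 := Z.h0
  have h3 : Tendsto (fun k => (y k).l.T.pb (fun ω => ¬ pr D (S.dl 1 k) ((Z.out y k).g ω)
    (s.Q.v k ((Z.l k).p.π ((y k).l.p.π ω))) (2 ^ (2 * (Z.c + Z.e * b + Z.e * η) * (S.F k).n)))) UF (𝓝 0) :=
    h D (Z.c + Z.e * b) (by linarith) h2 _ (Z.out_ad hb0 hy) (Z.e * η) (by positivity)
  have h4 := h3.add (Z.out_typ hy)
  rw [add_zero] at h4
  show Tendsto (fun k => (y k).l.T.pb (fun ω => ¬ pr D (Z.sp.dl 1 k) ((y k).g ω)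
    (Z.sys.Q.v k ((y k).l.p.π ω)) (2 ^ (2 * (b + η) * (Z.sp.F k).n)))) UF (𝓝 0)
  refine squeeze_zero' (Eventually.of_forall fun k => (y k).l.T.pb_nonneg _) ?_ h4
  filter_upwards [hy 1 one_pos] with k hk
  refine le_trans (FSp.pb_mono _ ?_) (pb_or _ _ _)
  intro ω hω h6
  by_contra hc
  rw [not_or, not_not, not_not] at hc
  apply h6
  have h7 := (hk.2.1 ω hω).1
  have h8 := hc.1
  rw [Z.out_g k ω hc.2] at h8
  have h9 := hpr D ((y k).g ω) h7.1 h7.2.1 (Z.oi k ((Z.l k).p.π ((y k).l.p.π ω))) (S.dl Z.c k) (S.dl 1 k) _ _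
    (S.dl_pos _ k) (Z.dl_c_le k) (S.dl_pos 1 k) h8
  refine Prp_congr h9 (Z.dl_inv k) rfl (Z.aff_fr' k _) ?_
  rw [Z.two_dl, ← Real.rpow_add (by norm_num), Z.sp_n]
  congr 1
  ring

end

end Pool.Agent.Helper81.DC
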